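import Mathlib

-- part Pool.Agent.P.MP_13a6c0_al.Free
section

/-! Combinatorics of the free group of rank two. -/

namespace Pool.Agent.P.MP_13a6c0_al

abbrev FG := FreeGroup (Fin 2)
abbrev Letter := Fin 2 × Bool

/-- the group element of a letter -/
def lt (x : Letter) : FG := FreeGroup.mk [x]

/-- the inverse letter -/
def iv (x : Letter) : Letter := (x.1, !x.2)

lemma iv_iv (x : Letter) : iv (iv x) = x := by simp [iv]

lemma lt_inv (x : Letter) : (lt x)⁻¹ = lt (iv x) := by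
  simp [lt, iv, FreeGroup.inv_mk, FreeGroup.invRev]

lemma toWord_lt (x : Letter) : (lt x).toWord = [x] := by
  simp [lt, FreeGroup.toWord_mk]

lemma norm_lt (x : Letter) : (lt x).norm = 1 := by
  simp [FreeGroup.norm, toWord_lt]

/-- first letter -/
def St (x : Letter) (g : FG) : Prop := g.toWord.head? = some x

/-- last letter -/
def En (x : Letter) (g : FG) : Prop := g.toWord.getLast? = some x

lemma St_lt (x : Letter) : St x (lt x) := by simp [St, toWord_lt]
lemma En_lt (x : Letter) : En x (lt x) := by simp [En, toWord_lt]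

lemma St.ne_one {x : Letter} {g : FG} (h : St x g) : g ≠ 1 := by
  rintro rfl
  simp [St] at h

lemma St.inv {x : Letter} {g : FG} (h : St x g) : En (iv x) g⁻¹ := by
  unfold St at h
  simp [En, FreeGroup.invRev, h, iv]

lemma En.inv {x : Letter} {g : FG} (h : En x g) : St (iv x) g⁻¹ := by
  unfold En at h
  simp [St, FreeGroup.invRev, h, iv]

lemma toWord_mul_of {x y : Letter} {g h : FG} (hg : En y g) (hh : St x h) (hxy : x ≠ iv y) :
    (g * h).toWord = g.toWord ++ h.toWord := by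
  rw [FreeGroup.toWord_mul]
  apply FreeGroup.IsReduced.reduce_eq
  have h1 : FreeGroup.IsReduced g.toWord := FreeGroup.isReduced_toWord
  have h2 : FreeGroup.IsReduced h.toWord := FreeGroup.isReduced_toWord
  unfold FreeGroup.IsReduced at *
  rw [List.isChain_append]
  refine ⟨h1, h2, ?_⟩
  intro u hu v hv
  unfold En at hg
  unfold St at hh
  rw [hg] at hu
  rw [hh] at hv
  simp only [Option.mem_def, Option.some.injEq] at hu hv
  subst hu hv
  intro e
  by_contra hne
  apply hxy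
  obtain ⟨a, b⟩ := x
  obtain ⟨c, d⟩ := y
  simp only [iv] at *
  subst e
  cases b <;> cases d <;> simp_all

lemma St.mul {x y z : Letter} {g h : FG} (hz : St z g) (hg : En y g) (hh : St x h)
    (hxy : x ≠ iv y) : St z (g * h) := by
  unfold St at *
  rw [toWord_mul_of hg hh hxy, List.head?_append, hz]
  rfl

lemma En.mul {x y z : Letter} {g h : FG} (hz : En z h) (hg : En y g) (hh : St x h)
    (hxy : x ≠ iv y) : En z (g * h) := by
  unfold En at hz ⊢
  rw [toWord_mul_of hg hh hxy, List.getLast?_append, hz]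
  rfl

lemma exists_St_En {g : FG} (hg : g ≠ 1) : ∃ x y, St x g ∧ En y g := by
  have h : g.toWord ≠ [] := fun e => hg (FreeGroup.toWord_eq_nil_iff.1 e)
  exact ⟨g.toWord.head h, g.toWord.getLast h, List.head?_eq_some_head h,
    List.getLast?_eq_some_getLast h⟩

lemma conj_St_En {x y s : Letter} {g : FG} (h1 : St x g) (h2 : En y g) (hx : x ≠ iv s)
    (hy : s ≠ y) : St s (lt s * g * (lt s)⁻¹) ∧ En (iv s) (lt s * g * (lt s)⁻¹) := by
  have a1 : St s (lt s * g) := (St_lt s).mul (En_lt s) h1 hx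
  have a2 : En y (lt s * g) := h2.mul (En_lt s) h1 hx
  have a3 : iv s ≠ iv y := fun e => hy (by rw [← iv_iv s, e, iv_iv])
  rw [lt_inv]
  exact ⟨a1.mul a2 (St_lt _) a3, (En_lt _).mul a2 (St_lt _) a3⟩

lemma exists_conj (s : Letter) {g : FG} (hg : g ≠ 1) : ∃ y : Letter,
    St s ((lt s * lt y) * g * (lt s * lt y)⁻¹) ∧ En (iv s) ((lt s * lt y) * g * (lt s * lt y)⁻¹) := by
  obtain ⟨x, z, h1, h2⟩ := exists_St_En hg
  have : ∀ x z s : Letter, ∃ y : Letter, x ≠ iv y ∧ y ≠ z ∧ y ≠ iv s := by decide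
  obtain ⟨y, e1, e2, e3⟩ := this x z s
  obtain ⟨b1, b2⟩ := conj_St_En h1 h2 e1 e2
  have e4 : s ≠ iv y := fun e => e3 (by rw [e, iv_iv])
  have := conj_St_En b1 b2 e3 e4
  refine ⟨y, ?_⟩
  have e : (lt s * lt y) * g * (lt s * lt y)⁻¹ = lt s * (lt y * g * (lt y)⁻¹) * (lt s)⁻¹ := by group
  rw [e]
  exact this

/-- the sixteen conjugators -/
def tau (t : Letter × Letter) : FG := (lt (0, true) * lt t.1)⁻¹ * (lt (1, true) * lt t.2)

lemma norm_tau (t : Letter × Letter) : (tau t).norm ≤ 4 := by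
  unfold tau
  have h1 := FreeGroup.norm_mul_le (lt (0, true) * lt t.1)⁻¹ (lt (1, true) * lt t.2)
  have h2 := FreeGroup.norm_mul_le (lt (0, true)) (lt t.1)
  have h3 := FreeGroup.norm_mul_le (lt (1, true)) (lt t.2)
  rw [FreeGroup.norm_inv_eq] at h1
  simp only [norm_lt] at h2 h3
  omega

lemma exists_tau {g h : FG} (hg : g ≠ 1) (hh : h ≠ 1) : ∃ t : Letter × Letter,
    g * (tau t * h * (tau t)⁻¹) * g⁻¹ * (tau t * h * (tau t)⁻¹)⁻¹ ≠ 1 := by
  obtain ⟨y1, a1, a2⟩ := exists_conj (0, true) hg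
  obtain ⟨y2, b1, b2⟩ := exists_conj (1, true) hh
  refine ⟨(y1, y2), ?_⟩
  set σ := lt (0, true) * lt y1 with hσ
  set τ := lt (1, true) * lt y2 with hτ
  set U := σ * g * σ⁻¹
  set V := τ * h * τ⁻¹
  have c1 : St (0, true) U⁻¹ := by simpa [iv_iv] using a2.inv
  have c2 : En (iv (0, true)) U⁻¹ := a1.inv
  have d1 : St (1, true) V⁻¹ := by simpa [iv_iv] using b2.inv
  have n1 : ((1, true) : Letter) ≠ iv (iv (0, true)) := by decide
  have n2 : ((0, true) : Letter) ≠ iv (iv (1, true)) := by decide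
  have e1 : St (0, true) (U * V) := a1.mul a2 b1 n1
  have e2 : En (iv (1, true)) (U * V) := b2.mul a2 b1 n1
  have f1 : St (0, true) (U * V * U⁻¹) := e1.mul e2 c1 n2
  have f2 : En (iv (0, true)) (U * V * U⁻¹) := c2.mul e2 c1 n2
  have g1 : St (0, true) (U * V * U⁻¹ * V⁻¹) := f1.mul f2 d1 n1
  intro e
  apply g1.ne_one
  have : U * V * U⁻¹ * V⁻¹ = σ * (g * (tau (y1, y2) * h * (tau (y1, y2))⁻¹) * g⁻¹ *
      (tau (y1, y2) * h * (tau (y1, y2))⁻¹)⁻¹) * σ⁻¹ := by
    have : tau (y1, y2) = σ⁻¹ * τ := rfl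
    rw [this]
    simp only [U, V]
    group
  rw [this, e]
  simp

/-- one step of the simple random walk contracts the function `2 ^ (-norm)` -/
lemma sum_half_pow_norm (g : FG) :
    ∑ x : Letter, (1 / 2 : ℝ) ^ (lt x * g).norm ≤ 7 / 2 * (1 / 2 : ℝ) ^ g.norm := by
  by_cases hg : g = 1
  · subst hg
    simp [norm_lt]
    norm_num
  obtain ⟨x, y, h1, -⟩ := exists_St_En hg
  have key : ∀ s : Letter, (1 / 2 : ℝ) ^ (lt s * g).norm ≤
      (1 / 2 + if s = iv x then 3 / 2 else 0) * (1 / 2 : ℝ) ^ g.norm := by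
    intro s
    split_ifs with hs
    · have h2 : g.norm ≤ (lt s * g).norm + 1 := by
        have := FreeGroup.norm_mul_le (lt s)⁻¹ (lt s * g)
        rw [FreeGroup.norm_inv_eq, norm_lt, inv_mul_cancel_left] at this
        omega
      have h3 : (1 / 2 : ℝ) ^ ((lt s * g).norm + 1) ≤ (1 / 2 : ℝ) ^ g.norm :=
        pow_le_pow_of_le_one (by norm_num) (by norm_num) h2
      rw [pow_succ] at h3
      linarith
    · have h2 : x ≠ iv s := fun e => hs (by rw [e, iv_iv])
      have h3 : (lt s * g).norm = g.norm + 1 := by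
        simp [FreeGroup.norm, toWord_mul_of (En_lt s) h1 h2, toWord_lt]
      rw [h3, pow_succ]
      linarith
  refine (Finset.sum_le_sum fun s _ => key s).trans ?_
  rw [← Finset.sum_mul, Finset.sum_add_distrib]
  simp
  norm_num

lemma finite_ball (n : ℕ) : {g : FG | g.norm ≤ n}.Finite := by
  have h := (List.finite_length_le Letter n).preimage (f := FreeGroup.toWord)
    (FreeGroup.toWord_injective.injOn)
  exact h

lemma mk_cons (x : Letter) (L : List Letter) : FreeGroup.mk (x :: L) = lt x * FreeGroup.mk L := by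
  simp [lt, FreeGroup.mul_mk]

/-- bounded displacement actions on the integers -/
def Bd (D : ℕ) (ρ : FG →* Equiv.Perm ℤ) : Prop := ∀ g z, |ρ g z - z| ≤ D * g.norm

lemma bd_of_letters {D : ℕ} {ρ : FG →* Equiv.Perm ℤ} (h : ∀ x z, |ρ (lt x) z - z| ≤ D) :
    Bd D ρ := by
  have key : ∀ (L : List Letter) (z : ℤ), |ρ (FreeGroup.mk L) z - z| ≤ D * L.length := by
    intro L
    induction L with
    | nil => intro z; simp [← FreeGroup.one_eq_mk]
    | cons x L ih =>
      intro z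
      rw [mk_cons, map_mul, Equiv.Perm.mul_apply]
      have h1 := h x (ρ (FreeGroup.mk L) z)
      have h2 := ih z
      rw [abs_le] at *
      push_cast [List.length_cons]
      constructor <;> nlinarith
  intro g z
  have := key g.toWord z
  rwa [FreeGroup.mk_toWord] at this

end Pool.Agent.P.MP_13a6c0_al
end

-- part Pool.Agent.P.MP_13a6c0_al.Dist
section

/-! Finitely supported probability distributions on the free group. -/

namespace Pool.Agent.P.MP_13a6c0_al

open Finset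

/-- a finite random element of the free group -/
structure Rv where
  n : Type
  fin : Fintype n
  p : n → ℝ
  g : n → FG
  nonneg : ∀ i, 0 ≤ p i
  tot : ∑ i, p i = 1

attribute [instance] Rv.fin

open Classical in
/-- real indicator of a proposition -/
noncomputable def ind (P : Prop) : ℝ := if P then 1 else 0

lemma ind_of {P : Prop} (h : P) : ind P = 1 := by simp [ind, h]
lemma ind_of_not {P : Prop} (h : ¬ P) : ind P = 0 := by simp [ind, h]
lemma ind_nonneg (P : Prop) : 0 ≤ ind P := by unfold ind; split_ifs <;> norm_num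
lemma ind_le_one (P : Prop) : ind P ≤ 1 := by unfold ind; split_ifs <;> norm_num
lemma ind_mono {P Q : Prop} (h : P → Q) : ind P ≤ ind Q := by
  by_cases hP : P
  · rw [ind_of hP, ind_of (h hP)]
  · rw [ind_of_not hP]; exact ind_nonneg _
lemma ind_congr {P Q : Prop} (h : P ↔ Q) : ind P = ind Q := by rw [propext h]
lemma ind_le {P : Prop} {r : ℝ} (h0 : 0 ≤ r) (h1 : P → 1 ≤ r) : ind P ≤ r := by
  by_cases hP : P
  · rw [ind_of hP]; exact h1 hP
  · rw [ind_of_not hP]; exact h0

namespace Rv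

/-- expectation -/
def E (μ : Rv) (φ : FG → ℝ) : ℝ := ∑ i, μ.p i * φ (μ.g i)

/-- all values satisfy `P` -/
def All (μ : Rv) (P : FG → Prop) : Prop := ∀ i, P (μ.g i)

lemma E_mono_of {μ : Rv} {P : FG → Prop} (hP : μ.All P) {φ ψ : FG → ℝ}
    (h : ∀ g, P g → φ g ≤ ψ g) : μ.E φ ≤ μ.E ψ :=
  sum_le_sum fun i _ => mul_le_mul_of_nonneg_left (h _ (hP i)) (μ.nonneg i)

lemma E_mono (μ : Rv) {φ ψ : FG → ℝ} (h : ∀ g, φ g ≤ ψ g) : μ.E φ ≤ μ.E ψ :=
  E_mono_of (P := fun _ => True) (fun _ => trivial) fun g _ => h g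

lemma E_const (μ : Rv) (c : ℝ) : μ.E (fun _ => c) = c := by
  unfold E
  rw [← sum_mul, μ.tot, one_mul]

lemma E_add (μ : Rv) (φ ψ : FG → ℝ) : μ.E (fun g => φ g + ψ g) = μ.E φ + μ.E ψ := by
  unfold E
  simp only [mul_add, sum_add_distrib]

lemma E_sub (μ : Rv) (φ ψ : FG → ℝ) : μ.E (fun g => φ g - ψ g) = μ.E φ - μ.E ψ := by
  unfold E
  simp only [mul_sub, sum_sub_distrib]

lemma E_mul_left (μ : Rv) (c : ℝ) (φ : FG → ℝ) : μ.E (fun g => c * φ g) = c * μ.E φ := by
  unfold E
  rw [mul_sum]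
  exact sum_congr rfl fun i _ => by ring

lemma E_mul_right (μ : Rv) (c : ℝ) (φ : FG → ℝ) : μ.E (fun g => φ g * c) = μ.E φ * c := by
  unfold E
  rw [sum_mul]
  exact sum_congr rfl fun i _ => by ring

lemma E_sum (μ : Rv) {κ : Type*} (s : Finset κ) (φ : κ → FG → ℝ) :
    μ.E (fun g => ∑ k ∈ s, φ k g) = ∑ k ∈ s, μ.E (φ k) := by
  unfold E
  simp only [mul_sum]
  rw [sum_comm]

lemma E_nonneg (μ : Rv) {φ : FG → ℝ} (h : ∀ g, 0 ≤ φ g) : 0 ≤ μ.E φ := by
  have := μ.E_mono (φ := fun _ => 0) h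
  rwa [E_const] at this

lemma E_le (μ : Rv) {φ : FG → ℝ} {c : ℝ} (h : ∀ g, φ g ≤ c) : μ.E φ ≤ c := by
  have := μ.E_mono (ψ := fun _ => c) h
  rwa [E_const] at this

lemma E_swap (μ ν : Rv) (f : FG → FG → ℝ) :
    μ.E (fun u => ν.E (fun v => f u v)) = ν.E (fun v => μ.E (fun u => f u v)) := by
  unfold E
  simp only [mul_sum]
  rw [sum_comm]
  exact sum_congr rfl fun i _ => sum_congr rfl fun j _ => by ring

lemma exists_lt (μ : Rv) {φ : FG → ℝ} {c : ℝ} (h : μ.E φ < c) : ∃ i, φ (μ.g i) < c := by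
  by_contra hc
  push Not at hc
  have : μ.E (fun _ => c) ≤ μ.E φ :=
    sum_le_sum fun i _ => mul_le_mul_of_nonneg_left (hc i) (μ.nonneg i)
  rw [E_const] at this
  linarith

lemma exists_bound (μ : Rv) : ∃ l : ℕ, μ.All fun g => g.norm ≤ l :=
  ⟨univ.sup fun i => (μ.g i).norm, fun i => le_sup (f := fun i => (μ.g i).norm) (mem_univ i)⟩

/-- point mass -/
def dirac (g : FG) : Rv where
  n := Unit
  fin := inferInstance
  p := fun _ => 1
  g := fun _ => g
  nonneg := fun _ => zero_le_one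
  tot := by simp

lemma E_dirac (g : FG) (φ : FG → ℝ) : (dirac g).E φ = φ g := by
  show ∑ _i : Unit, (1 : ℝ) * φ g = φ g
  simp

/-- image of a pair of independent random elements -/
def map2 (μ ν : Rv) (f : FG → FG → FG) : Rv where
  n := μ.n × ν.n
  fin := inferInstance
  p := fun i => μ.p i.1 * ν.p i.2
  g := fun i => f (μ.g i.1) (ν.g i.2)
  nonneg := fun i => mul_nonneg (μ.nonneg _) (ν.nonneg _)
  tot := by
    rw [Fintype.sum_prod_type]
    simp only [← mul_sum, ν.tot, mul_one, μ.tot]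

lemma E_map2 (μ ν : Rv) (f : FG → FG → FG) (φ : FG → ℝ) :
    (μ.map2 ν f).E φ = μ.E fun u => ν.E fun v => φ (f u v) := by
  show ∑ i : μ.n × ν.n, (μ.p i.1 * ν.p i.2) * φ (f (μ.g i.1) (ν.g i.2)) = _
  rw [Fintype.sum_prod_type]
  unfold E
  simp only [mul_sum, mul_assoc]

lemma All_map2 {μ ν : Rv} {f : FG → FG → FG} {P Q R : FG → Prop} (hP : μ.All P) (hQ : ν.All Q)
    (h : ∀ u v, P u → Q v → R (f u v)) : (μ.map2 ν f).All R :=
  fun i => h _ _ (hP i.1) (hQ i.2)

/-- mixture -/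
def mix {κ : Type} [Fintype κ] (w : κ → ℝ) (h0 : ∀ k, 0 ≤ w k) (h1 : ∑ k, w k = 1)
    (μ : κ → Rv) : Rv where
  n := Σ k, (μ k).n
  fin := inferInstance
  p := fun i => w i.1 * (μ i.1).p i.2
  g := fun i => (μ i.1).g i.2
  nonneg := fun i => mul_nonneg (h0 _) ((μ _).nonneg _)
  tot := by
    rw [Fintype.sum_sigma]
    simp only [← mul_sum, Rv.tot, mul_one, h1]

lemma E_mix {κ : Type} [Fintype κ] (w : κ → ℝ) (h0 : ∀ k, 0 ≤ w k) (h1 : ∑ k, w k = 1)
    (μ : κ → Rv) (φ : FG → ℝ) : (mix w h0 h1 μ).E φ = ∑ k, w k * (μ k).E φ := by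
  show ∑ i : Σ k, (μ k).n, (w i.1 * (μ i.1).p i.2) * φ ((μ i.1).g i.2) = _
  rw [Fintype.sum_sigma]
  unfold E
  simp only [mul_sum, mul_assoc]

lemma All_mix {κ : Type} [Fintype κ] (w : κ → ℝ) (h0 : ∀ k, 0 ≤ w k) (h1 : ∑ k, w k = 1)
    {μ : κ → Rv} {P : FG → Prop} (h : ∀ k, (μ k).All P) : (mix w h0 h1 μ).All P :=
  fun i => h i.1 i.2

/-- uniform choice among a finite family -/
noncomputable def unif {κ : Type} [Fintype κ] [Nonempty κ] (μ : κ → Rv) : Rv :=
  mix (fun _ => (Fintype.card κ : ℝ)⁻¹) (fun _ => by positivity)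
    (by
      have : (Fintype.card κ : ℝ) ≠ 0 := by exact_mod_cast Fintype.card_ne_zero
      simp [this]) μ

lemma E_unif {κ : Type} [Fintype κ] [Nonempty κ] (μ : κ → Rv) (φ : FG → ℝ) :
    (unif μ).E φ = (Fintype.card κ : ℝ)⁻¹ * ∑ k, (μ k).E φ := by
  unfold unif
  rw [E_mix, mul_sum]

lemma All_unif {κ : Type} [Fintype κ] [Nonempty κ] {μ : κ → Rv} {P : FG → Prop}
    (h : ∀ k, (μ k).All P) : (unif μ).All P := All_mix _ _ _ h

/-- random walk with uniformly chosen steps -/
noncomputable def walk {κ : Type} [Fintype κ] [Nonempty κ] (s : κ → FG) : ℕ → Rv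
  | 0 => dirac 1
  | n + 1 => (unif fun k => dirac (s k)).map2 (walk s n) (· * ·)

lemma E_walk_zero {κ : Type} [Fintype κ] [Nonempty κ] (s : κ → FG) (φ : FG → ℝ) :
    (walk s 0).E φ = φ 1 := E_dirac _ _

lemma E_walk_succ {κ : Type} [Fintype κ] [Nonempty κ] (s : κ → FG) (n : ℕ) (φ : FG → ℝ) :
    (walk s (n + 1)).E φ =
      (Fintype.card κ : ℝ)⁻¹ * ∑ k, (walk s n).E fun g => φ (s k * g) := by
  rw [walk, E_map2, E_unif]
  simp only [E_dirac]

lemma All_walk {κ : Type} [Fintype κ] [Nonempty κ] {s : κ → FG} {R : ℕ}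
    (hs : ∀ k, (s k).norm ≤ R) (n : ℕ) : (walk s n).All fun g => g.norm ≤ R * n := by
  induction n with
  | zero => intro i; show (1 : FG).norm ≤ _; simp
  | succ n ih =>
    refine All_map2 (P := fun g => g.norm ≤ R) (All_unif fun k _ => hs k) ih ?_
    intro u v hu hv
    have := FreeGroup.norm_mul_le u v
    rw [Nat.mul_succ]
    omega

end Rv

open Rv

/-- the simple random walk has spectral radius below one -/
lemma walk_point_le (n : ℕ) (h : FG) : (walk lt n).E (fun g => ind (g = h)) ≤ (7 / 8) ^ n := by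
  have key : ∀ n : ℕ, (walk lt n).E (fun g => (1 / 2 : ℝ) ^ (g * h⁻¹).norm) ≤ (7 / 8) ^ n := by
    intro n
    induction n with
    | zero =>
      rw [E_walk_zero, pow_zero]
      exact pow_le_one₀ (by norm_num) (by norm_num)
    | succ n ih =>
      rw [E_walk_succ, ← E_sum]
      have := (walk lt n).E_mono (φ := fun g => ∑ k : Letter, (1 / 2 : ℝ) ^ (lt k * g * h⁻¹).norm)
        (ψ := fun g => 7 / 2 * (1 / 2 : ℝ) ^ (g * h⁻¹).norm) fun g => by
          simpa only [mul_assoc] using sum_half_pow_norm (g * h⁻¹)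
      rw [E_mul_left] at this
      have hc : (Fintype.card Letter : ℝ) = 4 := by simp
      rw [hc, pow_succ]
      linarith
  refine le_trans ((walk lt n).E_mono fun g => ?_) (key n)
  refine ind_le (by positivity) ?_
  rintro rfl
  simp

end Pool.Agent.P.MP_13a6c0_al
end

-- part Pool.Agent.P.MP_13a6c0_al.Form
section

/-! The inner product on finitely supported functions on the integers and random walk operators. -/

namespace Pool.Agent.P.MP_13a6c0_al

open Finset Rv

abbrev V := ℤ →₀ ℝ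

/-- inner product -/
noncomputable def B : V →ₗ[ℝ] V →ₗ[ℝ] ℝ :=
  Finsupp.lsum ℝ fun z => LinearMap.toSpanSingleton ℝ _ (Finsupp.lapply z)

lemma B_single (z : ℤ) (a : ℝ) (g : V) : B (Finsupp.single z a) g = a * g z := by
  simp [B]

lemma B_apply (f g : V) : B f g = ∑ z ∈ f.support, f z * g z := by
  simp [B, Finsupp.lsum_apply, Finsupp.sum, LinearMap.sum_apply]

lemma B_eq_sum {f : V} {s : Finset ℤ} (hs : f.support ⊆ s) (g : V) :
    B f g = ∑ z ∈ s, f z * g z := by
  rw [B_apply]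
  refine sum_subset hs fun z _ hz => ?_
  rw [Finsupp.notMem_support_iff.1 hz, zero_mul]

lemma B_symm (f g : V) : B f g = B g f := by
  rw [B_eq_sum (s := f.support ∪ g.support) subset_union_left,
    B_eq_sum (s := f.support ∪ g.support) subset_union_right]
  exact sum_congr rfl fun z _ => mul_comm _ _

lemma B_nonneg (f : V) : 0 ≤ B f f := by
  rw [B_apply]
  exact sum_nonneg fun z _ => mul_self_nonneg _

/-- push forward along a permutation -/
noncomputable def T (e : Equiv.Perm ℤ) : V →ₗ[ℝ] V := Finsupp.lmapDomain ℝ ℝ e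

lemma T_single (e : Equiv.Perm ℤ) (z : ℤ) (a : ℝ) :
    T e (Finsupp.single z a) = Finsupp.single (e z) a := by
  simp [T]

lemma T_apply (e : Equiv.Perm ℤ) (f : V) (z : ℤ) : T e f z = f (e⁻¹ z) := by
  have := Finsupp.mapDomain_apply e.injective f (e⁻¹ z)
  have h : e (e⁻¹ z) = z := by simp
  rw [← this, h]
  rfl

lemma T_mul (e e' : Equiv.Perm ℤ) (f : V) : T (e * e') f = T e (T e' f) := by
  ext z
  simp [T_apply]

lemma T_one (f : V) : T 1 f = f := by
  ext z
  simp [T_apply]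

lemma B_T (e : Equiv.Perm ℤ) (f g : V) : B (T e f) g = B f (T e⁻¹ g) := by
  induction f using Finsupp.induction_linear with
  | zero => simp
  | add f f' h h' => simp [h, h']
  | single z a => rw [T_single, B_single, B_single, T_apply, inv_inv]

lemma B_T_T (e : Equiv.Perm ℤ) (f g : V) : B (T e f) (T e g) = B f g := by
  rw [B_T, ← T_mul, inv_mul_cancel, T_one]

lemma B_sub_sub (f g : V) : B (f - g) (f - g) = B f f - 2 * B f g + B g g := by
  simp only [map_sub, LinearMap.sub_apply, B_symm g f]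
  ring

lemma B_le (f g : V) {c : ℝ} (hc : 0 < c) : B f g ≤ (c * B f f + B g g / c) / 2 := by
  have h := B_nonneg (c • f - g)
  rw [B_sub_sub] at h
  simp only [map_smul, LinearMap.smul_apply, smul_eq_mul] at h
  have : 0 ≤ (c * (c * B f f) - 2 * (c * B f g) + B g g) / c := by positivity
  have e : (c * (c * B f f) - 2 * (c * B f g) + B g g) / c = c * B f f - 2 * B f g + B g g / c := by
    field_simp
  linarith

section walkop
variable {κ : Type} [Fintype κ] [Nonempty κ]

/-- averaging operator -/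
noncomputable def Pw (ρ : FG →* Equiv.Perm ℤ) (s : κ → FG) : V →ₗ[ℝ] V :=
  (Fintype.card κ : ℝ)⁻¹ • ∑ k, T (ρ (s k))

omit [Nonempty κ] in
lemma P_apply (ρ : FG →* Equiv.Perm ℤ) (s : κ → FG) (f : V) :
    Pw ρ s f = (Fintype.card κ : ℝ)⁻¹ • ∑ k, T (ρ (s k)) f := by
  simp [Pw, LinearMap.sum_apply]

lemma E_walk_lin (ρ : FG →* Equiv.Perm ℤ) (s : κ → FG) (f : V) (n : ℕ) (φ : V →ₗ[ℝ] ℝ) :
    (walk s n).E (fun g => φ (T (ρ g) f)) = φ ((Pw ρ s ^ n) f) := by
  induction n generalizing φ with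
  | zero => simp [E_walk_zero, T_one]
  | succ n ih =>
    rw [E_walk_succ, pow_succ', Module.End.mul_apply, P_apply, map_smul, map_sum, smul_eq_mul]
    congr 1
    refine sum_congr rfl fun k _ => ?_
    have := ih (φ.comp (T (ρ (s k))))
    simp only [LinearMap.comp_apply] at this
    rw [← this]
    simp only [map_mul, T_mul]

lemma B_P_diff (ρ : FG →* Equiv.Perm ℤ) (s : κ → FG) (f : V) :
    2 * (Fintype.card κ : ℝ) ^ 2 * (B f f - B (Pw ρ s f) (Pw ρ s f)) =
      ∑ k, ∑ l, B (T (ρ (s k)) f - T (ρ (s l)) f) (T (ρ (s k)) f - T (ρ (s l)) f) := by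
  have hc : (Fintype.card κ : ℝ) ≠ 0 := by exact_mod_cast Fintype.card_ne_zero
  simp only [B_sub_sub, B_T_T, sum_add_distrib, sum_sub_distrib, sum_const, card_univ,
    nsmul_eq_mul, P_apply, map_smul, map_sum, LinearMap.smul_apply, LinearMap.sum_apply,
    smul_eq_mul, ← mul_sum]
  have : ∑ k, ∑ l, B (T (ρ (s l)) f) (T (ρ (s k)) f) =
      ∑ k, ∑ l, B (T (ρ (s k)) f) (T (ρ (s l)) f) := sum_comm
  rw [this]
  field_simp
  ring

lemma B_step_le (ρ : FG →* Equiv.Perm ℤ) (s : κ → FG) (f : V) (k l : κ) :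
    B (T (ρ (s k)) f - T (ρ (s l)) f) (T (ρ (s k)) f - T (ρ (s l)) f) ≤
      2 * (Fintype.card κ : ℝ) ^ 2 * (B f f - B (Pw ρ s f) (Pw ρ s f)) := by
  rw [B_P_diff]
  refine le_trans ?_ (single_le_sum (f := fun k => ∑ l, B (T (ρ (s k)) f - T (ρ (s l)) f)
    (T (ρ (s k)) f - T (ρ (s l)) f)) (fun k _ => sum_nonneg fun l _ => B_nonneg _) (mem_univ k))
  exact single_le_sum (f := fun l => B (T (ρ (s k)) f - T (ρ (s l)) f)
    (T (ρ (s k)) f - T (ρ (s l)) f)) (fun l _ => B_nonneg _) (mem_univ l)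

end walkop

section markov
variable (ρ : FG →* Equiv.Perm ℤ)

lemma P_lt_symm (f g : V) : B (Pw ρ lt f) g = B f (Pw ρ lt g) := by
  simp only [P_apply, map_smul, map_sum, LinearMap.smul_apply, LinearMap.sum_apply, smul_eq_mul]
  congr 1
  have e : Letter ≃ Letter := Function.Involutive.toPerm iv iv_iv
  rw [← Equiv.sum_comp (Function.Involutive.toPerm iv iv_iv)]
  refine sum_congr rfl fun k _ => ?_
  rw [B_T, ← map_inv, lt_inv]
  simp [iv_iv]

lemma P_lt_lower (f : V) : 0 ≤ B f f + B (Pw ρ lt f) f := by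
  have key : ∀ k : Letter, - B f f ≤ B (T (ρ (lt k)) f) f := by
    intro k
    have h := B_nonneg (T (ρ (lt k)) f - (-f))
    rw [B_sub_sub, B_T_T] at h
    simp only [map_neg, LinearMap.neg_apply] at h
    linarith
  have := sum_le_sum fun k (_ : k ∈ (univ : Finset Letter)) => key k
  simp only [P_apply, map_smul, map_sum, LinearMap.smul_apply, LinearMap.sum_apply, smul_eq_mul]
  simp only [sum_const, card_univ, nsmul_eq_mul] at this
  have hc : (Fintype.card Letter : ℝ) = 4 := by simp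
  rw [hc] at this ⊢
  linarith

lemma P_lt_upper (f : V) : B (Pw ρ lt f) f ≤ B f f := by
  have key : ∀ k : Letter, B (T (ρ (lt k)) f) f ≤ B f f := by
    intro k
    have h := B_nonneg (T (ρ (lt k)) f - f)
    rw [B_sub_sub, B_T_T] at h
    linarith
  have := sum_le_sum fun k (_ : k ∈ (univ : Finset Letter)) => key k
  simp only [P_apply, map_smul, map_sum, LinearMap.smul_apply, LinearMap.sum_apply, smul_eq_mul]
  simp only [sum_const, card_univ, nsmul_eq_mul] at this
  have hc : (Fintype.card Letter : ℝ) = 4 := by simp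
  rw [hc] at this ⊢
  linarith

/-- Dirichlet energy -/
noncomputable def En2 (f : V) : ℝ := B f f - B (Pw ρ lt f) f

lemma En2_P (f : V) : En2 ρ (Pw ρ lt f) ≤ En2 ρ f := by
  have h := P_lt_lower ρ (f - Pw ρ lt f)
  simp only [map_sub, LinearMap.sub_apply] at h
  have e1 : B f (Pw ρ lt f) = B (Pw ρ lt f) f := B_symm _ _
  have e2 : B (Pw ρ lt (Pw ρ lt f)) f = B (Pw ρ lt f) (Pw ρ lt f) := P_lt_symm ρ _ _
  unfold En2
  linarith

lemma En2_pow (f : V) (n : ℕ) : En2 ρ ((Pw ρ lt ^ n) f) ≤ En2 ρ f := by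
  induction n with
  | zero => simp
  | succ n ih =>
    rw [pow_succ', Module.End.mul_apply]
    exact (En2_P ρ _).trans ih

lemma markov_type (f : V) (n : ℕ) : B f f - B ((Pw ρ lt ^ n) f) f ≤ n * En2 ρ f := by
  induction n with
  | zero => simp
  | succ n ih =>
    rw [pow_succ', Module.End.mul_apply]
    have h1 := En2_pow ρ f n
    set y := (Pw ρ lt ^ n) f
    have h2 := P_lt_upper ρ (y - f)
    simp only [map_sub, LinearMap.sub_apply] at h2
    have e1 : B f y = B y f := B_symm _ _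
    have e2 : B (Pw ρ lt f) y = B (Pw ρ lt y) f := by rw [P_lt_symm, B_symm]
    unfold En2 at *
    push_cast
    linarith

lemma En2_eq (f : V) : En2 ρ f = (∑ k : Letter, B (T (ρ (lt k)) f - f) (T (ρ (lt k)) f - f)) / 8 := by
  simp only [B_sub_sub, B_T_T, En2, P_apply, map_smul, map_sum, LinearMap.smul_apply,
    LinearMap.sum_apply, smul_eq_mul, sum_add_distrib, sum_sub_distrib, sum_const, card_univ,
    nsmul_eq_mul, ← mul_sum]
  have hc : (Fintype.card Letter : ℝ) = 4 := by simp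
  rw [hc]
  ring

/-- mean square displacement of a function under the simple random walk -/
lemma walk_sq_le (f : V) (n : ℕ) {c : ℝ}
    (hc : ∀ k : Letter, B (T (ρ (lt k)) f - f) (T (ρ (lt k)) f - f) ≤ c) :
    (walk lt n).E (fun g => B (T (ρ g) f - f) (T (ρ g) f - f)) ≤ n * c := by
  have h1 : En2 ρ f ≤ c / 2 := by
    rw [En2_eq]
    have := sum_le_sum fun k (_ : k ∈ (univ : Finset Letter)) => hc k
    simp only [sum_const, card_univ, nsmul_eq_mul] at this
    have hc : (Fintype.card Letter : ℝ) = 4 := by simp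
    rw [hc] at this
    linarith
  have h2 := markov_type ρ f n
  have h3 := E_walk_lin ρ lt f n (B.flip f)
  simp only [LinearMap.flip_apply] at h3
  simp only [B_sub_sub, B_T_T]
  rw [E_add, E_sub, E_const, E_mul_left, h3]
  have : (0 : ℝ) ≤ n := Nat.cast_nonneg n
  nlinarith

end markov

end Pool.Agent.P.MP_13a6c0_al
end

-- part Pool.Agent.P.MP_13a6c0_al.Reiter
section

/-! A universal Reiter type lemma for bounded displacement actions on the integers. -/

namespace Pool.Agent.P.MP_13a6c0_al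

open Finset Rv

lemma Rv.E_congr_of {μ : Rv} {P : FG → Prop} (hP : μ.All P) {φ ψ : FG → ℝ}
    (h : ∀ g, P g → φ g = ψ g) : μ.E φ = μ.E ψ :=
  le_antisymm (E_mono_of hP fun g hg => (h g hg).le) (E_mono_of hP fun g hg => (h g hg).ge)

lemma step_diff {κ : Type} [Fintype κ] [Nonempty κ] {D R : ℕ} {ρ : FG →* Equiv.Perm ℤ}
    (hρ : Bd D ρ) {s : κ → FG} (hs : ∀ k, (s k).norm ≤ R) (z : ℤ) (k l : κ) (hl : s l = 1)
    (Q : ℤ → Prop) (n : ℕ) {c : ℝ} (hc : 0 < c) :
    (walk s n).E (fun g => ind (Q (ρ (s k * g) z))) - (walk s n).E (fun g => ind (Q (ρ g z))) ≤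
      (c * (2 * (Fintype.card κ : ℝ) ^ 2 *
        (B ((Pw ρ s ^ n) (Finsupp.single z 1)) ((Pw ρ s ^ n) (Finsupp.single z 1)) -
          B ((Pw ρ s ^ (n + 1)) (Finsupp.single z 1)) ((Pw ρ s ^ (n + 1)) (Finsupp.single z 1))))
        + (2 * D * R + 1) * (n + 1) / c) / 2 := by
  classical
  set r : ℕ := D * (R * (n + 1)) with hr
  set I : Finset ℤ := Icc (z - r) (z + r) with hI
  set q : V := Finsupp.onFinset I (fun y => if y ∈ I then ind (Q y) else 0)
    (fun y hy => by by_contra h; simp [h] at hy) with hq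
  have hq1 : ∀ y ∈ I, q y = ind (Q y) := fun y hy => by simp [hq, hy]
  have hmem : ∀ g : FG, g.norm ≤ R * (n + 1) → ρ g z ∈ I := by
    intro g hg
    have h1 := hρ g z
    have h2 : (D : ℤ) * g.norm ≤ r := by
      rw [hr]
      exact_mod_cast Nat.mul_le_mul_left D hg
    rw [abs_le] at h1
    rw [hI, mem_Icc]
    constructor <;> linarith [h1.1, h1.2]
  set δ : V := Finsupp.single z 1
  have e1 : (walk s n).E (fun g => ind (Q (ρ (s k * g) z))) =
      B (T (ρ (s k)) ((Pw ρ s ^ n) δ)) q := by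
    have := E_walk_lin ρ s δ n ((B.flip q).comp (T (ρ (s k))))
    simp only [LinearMap.comp_apply, LinearMap.flip_apply] at this
    rw [← this]
    refine E_congr_of (All_walk hs n) fun g hg => ?_
    rw [← T_mul, ← map_mul, T_single, B_single, one_mul, hq1]
    apply hmem
    have := FreeGroup.norm_mul_le (s k) g
    have := hs k
    rw [Nat.mul_succ]
    omega
  have e2 : (walk s n).E (fun g => ind (Q (ρ g z))) = B (T (ρ (s l)) ((Pw ρ s ^ n) δ)) q := by
    have := E_walk_lin ρ s δ n (B.flip q)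
    simp only [LinearMap.flip_apply] at this
    rw [hl, map_one, T_one, ← this]
    refine E_congr_of (All_walk hs n) fun g hg => ?_
    rw [T_single, B_single, one_mul, hq1]
    apply hmem
    rw [Nat.mul_succ]
    omega
  have e3 : B q q ≤ (2 * D * R + 1) * (n + 1) := by
    rw [B_eq_sum (s := I) Finsupp.support_onFinset_subset]
    have h1 : ∑ y ∈ I, q y * q y ≤ ∑ _y ∈ I, (1 : ℝ) := by
      refine sum_le_sum fun y hy => ?_
      rw [hq1 y hy]
      have := ind_nonneg (Q y)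
      have := ind_le_one (Q y)
      nlinarith
    have h2 : (I.card : ℝ) = 2 * r + 1 := by
      have : (I.card : ℤ) = 2 * r + 1 := by
        rw [hI, Int.card_Icc_of_le _ _ (by omega)]
        ring
      exact_mod_cast this
    rw [sum_const, nsmul_eq_mul, mul_one, h2, hr] at h1
    push_cast at h1
    have : (0 : ℝ) ≤ n := Nat.cast_nonneg n
    nlinarith
  rw [e1, e2, ← LinearMap.sub_apply, ← map_sub]
  refine (B_le _ _ hc).trans ?_
  have h4 := B_step_le ρ s ((Pw ρ s ^ n) δ) k l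
  rw [pow_succ' (Pw ρ s), Module.End.mul_apply]
  have h5 := mul_le_mul_of_nonneg_left h4 hc.le
  have h6 : B q q / c ≤ (2 * D * R + 1) * (n + 1) / c := by gcongr
  linarith

theorem reiter {κ : Type} [Fintype κ] (h : κ → FG) (D : ℕ) {η : ℝ} (hη : 0 < η) :
    ∃ μ : Rv, ∀ ρ : FG →* Equiv.Perm ℤ, Bd D ρ → ∀ (z : ℤ) (k : κ) (Q : ℤ → Prop),
      μ.E (fun g => ind (Q (ρ (h k * g) z))) ≤ μ.E (fun g => ind (Q (ρ g z))) + η := by
  set s : Option κ → FG := fun o => o.elim 1 h with hs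
  obtain ⟨R, hR⟩ : ∃ R : ℕ, ∀ k, (s k).norm ≤ R :=
    ⟨univ.sup fun i => (s i).norm, fun i => le_sup (f := fun i => (s i).norm) (mem_univ i)⟩
  set M : ℝ := (Fintype.card (Option κ) : ℝ) with hM
  set C : ℝ := 2 * D * R + 1 with hC
  have hC0 : 0 < C := by positivity
  set Λ : ℝ := C / η with hΛ
  have hΛ0 : 0 < Λ := by positivity
  obtain ⟨N, hN⟩ := (Real.tendsto_sum_range_one_div_nat_succ_atTop.eventually_ge_atTop
    (2 * Λ * M ^ 2 / η + 1)).exists
  set H : ℝ := ∑ i ∈ range N, (1 / (i + 1) : ℝ) with hH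
  have hH0 : 0 < H := lt_of_lt_of_le (by positivity) hN
  set w : Fin N → ℝ := fun n => 1 / (((n : ℕ) + 1) * H) with hw
  have hw0 : ∀ n, 0 ≤ w n := fun n => by positivity
  have hw1 : ∑ n, w n = 1 := by
    have : ∑ n : Fin N, w n = (∑ i ∈ range N, (1 / (i + 1) : ℝ)) / H := by
      rw [sum_div, ← Fin.sum_univ_eq_sum_range (fun i => (1 / (i + 1) : ℝ) / H)]
      refine sum_congr rfl fun n _ => ?_
      simp only [hw]
      field_simp
    rw [this, ← hH, div_self hH0.ne']
  refine ⟨mix w hw0 hw1 fun n => walk s n, fun ρ hρ z k Q => ?_⟩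
  rw [E_mix, E_mix, ← sub_le_iff_le_add', ← sum_sub_distrib]
  set a : ℕ → ℝ := fun n =>
    B ((Pw ρ s ^ n) (Finsupp.single z 1)) ((Pw ρ s ^ n) (Finsupp.single z 1)) with ha
  have key : ∀ n : Fin N, w n * (walk s n).E (fun g => ind (Q (ρ (h k * g) z))) -
      w n * (walk s n).E (fun g => ind (Q (ρ g z))) ≤
        Λ * M ^ 2 / H * (a n - a (n + 1)) + η / 2 * w n := by
    intro n
    have h1 := step_diff hρ hR z (some k) none rfl Q n (c := ((n : ℕ) + 1) * Λ) (by positivity)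
    have h2 := mul_le_mul_of_nonneg_left h1 (hw0 n)
    rw [mul_sub] at h2
    refine le_trans h2 (le_of_eq ?_)
    simp only [hw, ha, ← hC, hΛ, ← hM]
    field_simp
  refine (sum_le_sum fun n _ => key n).trans ?_
  rw [sum_add_distrib, ← mul_sum, ← mul_sum, hw1,
    Fin.sum_univ_eq_sum_range (fun n => a n - a (n + 1)), sum_range_sub']
  have a0 : a 0 = 1 := by simp [ha, B_single]
  have aN : 0 ≤ a N := B_nonneg _
  have h3 : Λ * M ^ 2 / H ≤ η / 2 := by
    rw [div_le_iff₀ hH0]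
    have : 2 * Λ * M ^ 2 / η ≤ H := by linarith
    rw [div_le_iff₀ hη] at this
    linarith
  have h4 : 0 ≤ Λ * M ^ 2 / H := by positivity
  nlinarith

end Pool.Agent.P.MP_13a6c0_al
end
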