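import Pool.Agent.K.MP_13a6c0_al.C1
import Pool.Agent.P.MP_13a6c0_al.Defs

-- part Pool.Agent.P.MP_13a6c0_al.Base
section

/-! Universal almost laws for bounded displacement actions on the integers. -/

namespace Pool.Agent.P.MP_13a6c0_al

open Finset Rv

/-- a random nontrivial word of length at most `l` moving each point of each `D`-bounded action
with probability at most `δ` -/
def Almost (D : ℕ) (δ : ℝ) (l : ℕ) : Prop :=
  ∃ μ : Rv, μ.All (fun g => g ≠ 1 ∧ g.norm ≤ l) ∧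
    ∀ ρ : FG →* Equiv.Perm ℤ, Bd D ρ → ∀ z, μ.E (fun g => ind (ρ g z ≠ z)) ≤ δ

lemma perm_inv_fix {a : Equiv.Perm ℤ} {z : ℤ} : a⁻¹ z = z ↔ a z = z := by
  rw [Equiv.Perm.inv_eq_iff_eq, eq_comm]

lemma comm_fix_left {a b : Equiv.Perm ℤ} {z : ℤ} (h1 : a z = z) (h2 : a (b⁻¹ z) = b⁻¹ z) :
    (a * b * a⁻¹ * b⁻¹) z = z := by
  simp only [Equiv.Perm.mul_apply]
  rw [perm_inv_fix.2 h2]
  simpa using h1

lemma comm_fix_right {a b : Equiv.Perm ℤ} {z : ℤ} (h1 : b z = z) (h2 : b (a⁻¹ z) = a⁻¹ z) :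
    (a * b * a⁻¹ * b⁻¹) z = z := by
  simp only [Equiv.Perm.mul_apply]
  rw [perm_inv_fix.2 h1, h2]
  simp

lemma conj_fix {t v : Equiv.Perm ℤ} {y : ℤ} : (t * v * t⁻¹) y = y ↔ v (t⁻¹ y) = t⁻¹ y := by
  simp only [Equiv.Perm.mul_apply]
  rw [← Equiv.Perm.eq_inv_iff_eq]

lemma iter_comm (l : List FG) (hl : ∀ g ∈ l, g ≠ 1) : ∃ (W : FG) (H : Finset FG), W ≠ 1 ∧
    H.card + 2 ≤ 2 ^ (l.length + 1) ∧ ∀ (ρ : FG →* Equiv.Perm ℤ) (z : ℤ), ∀ g ∈ l,
      (∀ h ∈ H, ρ g (ρ h z) = ρ h z) → ρ W z = z := by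
  classical
  induction l with
  | nil => exact ⟨lt (0, true), ∅, (St_lt _).ne_one, by simp, by simp⟩
  | cons g l ih =>
    obtain ⟨W, H, hW, hH, hfix⟩ := ih fun g' hg' => hl g' (List.mem_cons_of_mem _ hg')
    obtain ⟨t, ht⟩ := exists_tau hW (hl g List.mem_cons_self)
    set τ := tau t
    refine ⟨_, H ∪ H.image (· * (τ * g * τ⁻¹)⁻¹) ∪ {τ⁻¹, τ⁻¹ * W⁻¹}, ht, ?_, ?_⟩
    · have a1 := card_union_le (H ∪ H.image (· * (τ * g * τ⁻¹)⁻¹)) {τ⁻¹, τ⁻¹ * W⁻¹}
      have a2 := card_union_le H (H.image (· * (τ * g * τ⁻¹)⁻¹))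
      have a3 := card_image_le (s := H) (f := (· * (τ * g * τ⁻¹)⁻¹))
      have a4 := card_le_two (a := τ⁻¹) (b := τ⁻¹ * W⁻¹)
      rw [List.length_cons, pow_succ 2 (l.length + 1)]
      omega
    · intro ρ z g' hg' hf
      simp only [map_mul, map_inv]
      rcases List.mem_cons.1 hg' with rfl | hg'
      · apply comm_fix_right
        · rw [conj_fix]
          have := hf τ⁻¹ (by simp)
          simpa using this
        · rw [conj_fix]
          have := hf (τ⁻¹ * W⁻¹) (by simp)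
          simpa using this
      · apply comm_fix_left
        · exact hfix ρ z g' hg' fun h hh => hf h (by simp [hh])
        · refine hfix ρ _ g' hg' fun h hh => ?_
          have := hf (h * (τ * g * τ⁻¹)⁻¹)
            (mem_union_left _ (mem_union_right _ (mem_image_of_mem _ hh)))
          simpa only [map_mul, map_inv, Equiv.Perm.mul_apply] using this

lemma pow_fix {e : Equiv.Perm ℤ} {J : Finset ℤ} (h : ∀ z, e z ∈ J ↔ z ∈ J) {z : ℤ} (hz : z ∈ J) :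
    (e ^ J.card.factorial) z = z := by
  classical
  have h1 : (e.subtypePerm (p := fun z => z ∈ J) h) ^ J.card.factorial = 1 := by
    have := pow_card_eq_one (x := e.subtypePerm (p := fun z => z ∈ J) h)
    rwa [Fintype.card_perm, Fintype.card_coe] at this
  rw [Equiv.Perm.subtypePerm_pow] at h1
  have h2 := congrArg (fun f : Equiv.Perm {z // z ∈ J} => (f ⟨z, hz⟩ : ℤ)) h1
  simpa using h2

lemma pow_mul_fix {e : Equiv.Perm ℤ} {z : ℤ} {a : ℕ} (h : (e ^ a) z = z) (b : ℕ) :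
    (e ^ (a * b)) z = z := by
  rw [pow_mul]
  exact Equiv.Perm.pow_apply_eq_self_of_apply_eq_self h b

theorem base (D : ℕ) {δ : ℝ} (hδ : 0 < δ) : ∃ l, Almost D δ l := by
  classical
  obtain ⟨U, hU1, hU⟩ := interval D
  have step : ∀ E : ℕ, ∃ (W : FG) (H : Finset FG) (N : ℕ), 0 < E → (W ≠ 1 ∧
      H.card ≤ 2 ^ (U.card + 1) ∧ 0 < N ∧ ∀ ρ : FG →* Equiv.Perm ℤ, Bd D ρ → ∀ z, ρ W z ≠ z →
        ∃ h ∈ H, ∃ u ∈ U, (ρ u ^ (E * N)) (ρ h z) = ρ h z ∧ (ρ u ^ E) (ρ h z) ≠ ρ h z) := by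
    intro E
    by_cases hE : 0 < E
    swap
    · exact ⟨1, ∅, 0, fun h => absurd h hE⟩
    obtain ⟨W, H, hW, hH, hfix⟩ := iter_comm (U.toList.map (· ^ E)) (by
      intro g hg
      obtain ⟨u, hu, rfl⟩ := List.mem_map.1 hg
      rw [Ne, pow_eq_one_iff_left hE.ne']
      exact hU1 u (mem_toList.1 hu))
    set R : ℕ := D * H.sup FreeGroup.norm with hR
    refine ⟨W, H, (2 * R + 1).factorial, fun _ => ⟨hW, ?_, Nat.factorial_pos _, ?_⟩⟩
    · rw [List.length_map, length_toList] at hH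
      omega
    intro ρ hρ z hz
    obtain ⟨u, hu, hJ⟩ := hU ρ hρ (z - R) (z + R) (by omega)
    by_contra hcon
    push Not at hcon
    apply hz
    refine hfix ρ z (u ^ E) (List.mem_map.2 ⟨u, mem_toList.2 hu, rfl⟩) fun h hh => ?_
    rw [map_pow]
    apply hcon h hh u hu
    rw [mul_comm]
    apply pow_mul_fix
    have hc : (Icc (z - R) (z + R)).card = 2 * R + 1 := by
      rw [Int.card_Icc]; omega
    rw [← hc]
    apply pow_fix hJ
    have h1 := abs_le.1 (hρ h z)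
    have h2 : (D : ℤ) * h.norm ≤ R := by
      rw [hR]
      exact_mod_cast Nat.mul_le_mul_left D (le_sup (f := FreeGroup.norm) hh)
    rw [mem_Icc]
    omega
  choose W H N hstep using step
  set Es : ℕ → ℕ := fun j => Nat.rec 1 (fun _ E => E * N E) j with hEs
  have Es_succ : ∀ j, Es (j + 1) = Es j * N (Es j) := fun j => rfl
  have Es_pos : ∀ j, 0 < Es j := by
    intro j
    induction j with
    | zero => exact Nat.one_pos
    | succ j ih => rw [Es_succ]; exact Nat.mul_pos ih (hstep _ ih).2.2.1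
  set c : ℝ := 2 ^ (U.card + 1) with hc
  have hc0 : 0 < c := by positivity
  obtain ⟨J, hJ⟩ := exists_nat_gt (2 * c * U.card / δ)
  have hJ0 : (0 : ℝ) < J := lt_of_le_of_lt (by positivity) hJ
  have : Nonempty (Fin J) := ⟨⟨0, by exact_mod_cast hJ0⟩⟩
  obtain ⟨μ, hμ⟩ := reiter (κ := Σ j : Fin J, H (Es j)) (fun k => k.2.1) D
    (η := δ / (2 * c)) (by positivity)
  set ν : Rv := unif fun j : Fin J => (dirac (W (Es j))).map2 μ fun w g => g⁻¹ * w * g with hν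
  obtain ⟨l, hl⟩ := ν.exists_bound
  have hne : ν.All fun g => g ≠ 1 := by
    refine All_unif fun j => All_map2 (P := fun g => g ≠ 1) (Q := fun _ => True)
      (fun _ => (hstep _ (Es_pos j)).1) (fun _ => trivial) ?_
    intro u v hu _ e
    apply hu
    have : u = v * (v⁻¹ * u * v) * v⁻¹ := by group
    rw [this, e]; simp
  refine ⟨l, ν, fun i => ⟨hne i, hl i⟩, fun ρ hρ z => ?_⟩
  set Un : ℕ → ℤ → Prop := fun j y => ∃ u ∈ U, (ρ u ^ Es (j + 1)) y = y ∧ (ρ u ^ Es j) y ≠ y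
    with hUn
  have tele : ∀ y, ∑ j : Fin J, ind (Un j y) ≤ U.card := by
    intro y
    have a1 : ∀ j : ℕ, ind (Un j y) ≤
        ∑ u ∈ U, (ind ((ρ u ^ Es (j + 1)) y = y) - ind ((ρ u ^ Es j) y = y)) := by
      intro j
      have b1 : ∀ u ∈ U, 0 ≤ ind ((ρ u ^ Es (j + 1)) y = y) - ind ((ρ u ^ Es j) y = y) :=
        fun u _ => sub_nonneg.2 (ind_mono fun h => by rw [Es_succ]; exact pow_mul_fix h _)
      refine ind_le (sum_nonneg b1) ?_
      rintro ⟨u, hu, h1, h2⟩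
      refine le_trans ?_ (single_le_sum b1 hu)
      rw [ind_of h1, ind_of_not h2]
      norm_num
    refine (sum_le_sum fun (j : Fin J) _ => a1 j).trans ?_
    rw [sum_comm]
    refine (sum_le_sum (g := fun _ => (1 : ℝ)) fun u _ => ?_).trans (by simp)
    rw [Fin.sum_univ_eq_sum_range
      (fun j => ind ((ρ u ^ Es (j + 1)) y = y) - ind ((ρ u ^ Es j) y = y)),
      sum_range_sub (fun j => ind ((ρ u ^ Es j) y = y))]
    linarith [ind_le_one ((ρ u ^ Es J) y = y), ind_nonneg ((ρ u ^ Es 0) y = y)]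
  have lev : ∀ j : Fin J, μ.E (fun g => ind (ρ (g⁻¹ * W (Es j) * g) z ≠ z)) ≤
      c * μ.E (fun g => ind (Un j (ρ g z))) + δ / 2 := by
    intro j
    obtain ⟨-, h2, -, h4⟩ := hstep _ (Es_pos j)
    have a1 : μ.E (fun g => ind (ρ (g⁻¹ * W (Es j) * g) z ≠ z)) ≤
        μ.E (fun g => ∑ h ∈ H (Es j), ind (Un j (ρ (h * g) z))) := by
      refine μ.E_mono fun g => ind_le (sum_nonneg fun _ _ => ind_nonneg _) fun hm => ?_
      have b1 : ρ (W (Es j)) (ρ g z) ≠ ρ g z := by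
        intro e
        apply hm
        simp [e]
      obtain ⟨h, hh, u, hu, b2⟩ := h4 ρ hρ _ b1
      refine le_trans ?_ (single_le_sum (f := fun h => ind (Un j (ρ (h * g) z)))
        (fun _ _ => ind_nonneg _) hh)
      refine (ind_of ?_).ge
      refine ⟨u, hu, ?_⟩
      rw [Es_succ, map_mul, Equiv.Perm.mul_apply]
      exact b2
    rw [E_sum] at a1
    have a2 : ∑ h ∈ H (Es j), μ.E (fun g => ind (Un j (ρ (h * g) z))) ≤
        ∑ _h ∈ H (Es j), (μ.E (fun g => ind (Un j (ρ g z))) + δ / (2 * c)) :=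
      sum_le_sum fun h hh => hμ ρ hρ z ⟨j, h, hh⟩ (Un j)
    rw [sum_const, nsmul_eq_mul] at a2
    have a3 : ((H (Es j)).card : ℝ) ≤ c := by rw [hc]; exact_mod_cast h2
    have a4 : 0 ≤ μ.E (fun g => ind (Un j (ρ g z))) := μ.E_nonneg fun _ => ind_nonneg _
    have a5 : ((H (Es j)).card : ℝ) * (μ.E (fun g => ind (Un j (ρ g z))) + δ / (2 * c)) ≤
        c * (μ.E (fun g => ind (Un j (ρ g z))) + δ / (2 * c)) := by gcongr
    have a6 : c * (δ / (2 * c)) = δ / 2 := by field_simp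
    linarith
  rw [hν, E_unif]
  simp only [E_map2, E_dirac, Fintype.card_fin]
  have a1 := sum_le_sum fun j (_ : j ∈ (univ : Finset (Fin J))) => lev j
  rw [sum_add_distrib, ← mul_sum, sum_const, card_univ, Fintype.card_fin,
    nsmul_eq_mul] at a1
  have a2 : μ.E (fun g => ∑ j : Fin J, ind (Un j (ρ g z))) ≤ U.card := μ.E_le fun g => tele _
  rw [E_sum] at a2
  have a3 := mul_le_mul_of_nonneg_left a2 hc0.le
  rw [inv_mul_le_iff₀ hJ0]
  rw [div_lt_iff₀ hδ] at hJ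
  nlinarith

theorem square {D : ℕ} {δ : ℝ} {l : ℕ} (h : Almost D δ l) : Almost D (48 * δ ^ 2) (4 * l + 16) := by
  classical
  obtain ⟨μ, hμ, hb⟩ := h
  have hch : ∀ u v : FG, ∃ t : Letter × Letter, u ≠ 1 → v ≠ 1 →
      u * (tau t * v * (tau t)⁻¹) * u⁻¹ * (tau t * v * (tau t)⁻¹)⁻¹ ≠ 1 := by
    intro u v
    by_cases hu : u = 1
    · exact ⟨((0, true), (0, true)), fun h => absurd hu h⟩
    by_cases hv : v = 1
    · exact ⟨((0, true), (0, true)), fun _ h => absurd hv h⟩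
    obtain ⟨t, ht⟩ := exists_tau hu hv
    exact ⟨t, fun _ _ => ht⟩
  choose t ht using hch
  refine ⟨μ.map2 μ fun u v => u * (tau (t u v) * v * (tau (t u v))⁻¹) * u⁻¹ *
    (tau (t u v) * v * (tau (t u v))⁻¹)⁻¹, All_map2 hμ hμ ?_, fun ρ hρ z => ?_⟩
  · rintro u v ⟨hu, hu'⟩ ⟨hv, hv'⟩
    refine ⟨ht u v hu hv, ?_⟩
    set τ := tau (t u v)
    have a0 : τ.norm ≤ 4 := norm_tau _
    have a1 := FreeGroup.norm_mul_le (τ * v) τ⁻¹
    have a2 := FreeGroup.norm_mul_le τ v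
    have a3 := FreeGroup.norm_mul_le (u * (τ * v * τ⁻¹) * u⁻¹) (τ * v * τ⁻¹)⁻¹
    have a4 := FreeGroup.norm_mul_le (u * (τ * v * τ⁻¹)) u⁻¹
    have a5 := FreeGroup.norm_mul_le u (τ * v * τ⁻¹)
    rw [FreeGroup.norm_inv_eq] at a1 a3 a4
    omega
  have hδ : 0 ≤ δ := le_trans (μ.E_nonneg fun _ => ind_nonneg _) (hb ρ hρ z)
  have prod1 : ∀ y : FG → ℤ,
      μ.E (fun u => μ.E fun v => ind (ρ u z ≠ z) * ind (ρ v (y u) ≠ y u)) ≤ δ ^ 2 := by
    intro y
    have := μ.E_mono (φ := fun u => μ.E fun v => ind (ρ u z ≠ z) * ind (ρ v (y u) ≠ y u))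
      (ψ := fun u => ind (ρ u z ≠ z) * δ) fun u => by
        rw [E_mul_left]
        exact mul_le_mul_of_nonneg_left (hb ρ hρ _) (ind_nonneg _)
    rw [E_mul_right] at this
    have h2 := mul_le_mul_of_nonneg_right (hb ρ hρ z) hδ
    nlinarith
  have prod2 : ∀ (y : FG → ℤ) (x : ℤ),
      μ.E (fun u => μ.E fun v => ind (ρ v x ≠ x) * ind (ρ u (y v) ≠ y v)) ≤ δ ^ 2 := by
    intro y x
    rw [E_swap]
    have := μ.E_mono (φ := fun v => μ.E fun u => ind (ρ v x ≠ x) * ind (ρ u (y v) ≠ y v))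
      (ψ := fun v => ind (ρ v x ≠ x) * δ) fun u => by
        rw [E_mul_left]
        exact mul_le_mul_of_nonneg_left (hb ρ hρ _) (ind_nonneg _)
    rw [E_mul_right] at this
    have h2 := mul_le_mul_of_nonneg_right (hb ρ hρ x) hδ
    nlinarith
  set G : Letter × Letter → FG → FG → ℝ := fun s u v =>
    ind (ρ u z ≠ z) * ind (ρ v ((ρ (tau s))⁻¹ z) ≠ (ρ (tau s))⁻¹ z) +
    ind (ρ u z ≠ z) * ind (ρ v ((ρ (tau s))⁻¹ ((ρ u)⁻¹ z)) ≠ (ρ (tau s))⁻¹ ((ρ u)⁻¹ z)) +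
    ind (ρ v ((ρ (tau s))⁻¹ z) ≠ (ρ (tau s))⁻¹ z) *
      ind (ρ u ((ρ (tau s) * ρ v * (ρ (tau s))⁻¹)⁻¹ z) ≠ (ρ (tau s) * ρ v * (ρ (tau s))⁻¹)⁻¹ z)
    with hG
  have G0 : ∀ s u v, 0 ≤ G s u v := fun s u v =>
    add_nonneg (add_nonneg (mul_nonneg (ind_nonneg _) (ind_nonneg _))
      (mul_nonneg (ind_nonneg _) (ind_nonneg _))) (mul_nonneg (ind_nonneg _) (ind_nonneg _))
  have GE : ∀ s, μ.E (fun u => μ.E fun v => G s u v) ≤ 3 * δ ^ 2 := by
    intro s
    simp only [hG, E_add]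
    have a1 := prod1 fun _ => (ρ (tau s))⁻¹ z
    have a2 := prod1 fun u => (ρ (tau s))⁻¹ ((ρ u)⁻¹ z)
    have a3 := prod2 (fun v => (ρ (tau s) * ρ v * (ρ (tau s))⁻¹)⁻¹ z) ((ρ (tau s))⁻¹ z)
    linarith
  rw [E_map2]
  refine le_trans (μ.E_mono (ψ := fun u => μ.E fun v => ∑ s, G s u v) fun u => μ.E_mono fun v =>
    ind_le (sum_nonneg fun s _ => G0 s u v) fun hm => ?_) ?_
  · refine le_trans ?_ (single_le_sum (f := fun s => G s u v) (fun s _ => G0 s u v)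
      (mem_univ (t u v)))
    simp only [map_mul, map_inv] at hm
    simp only [hG]
    set a := ρ u
    set τ := ρ (tau (t u v))
    set b := ρ v
    have n1 := ind_nonneg (a z ≠ z)
    have n2 := ind_nonneg (b (τ⁻¹ z) ≠ τ⁻¹ z)
    have n3 := ind_nonneg (b (τ⁻¹ (a⁻¹ z)) ≠ τ⁻¹ (a⁻¹ z))
    have n4 := ind_nonneg (a ((τ * b * τ⁻¹)⁻¹ z) ≠ (τ * b * τ⁻¹)⁻¹ z)
    by_cases h1 : a z = z
    · have h2 : a ((τ * b * τ⁻¹)⁻¹ z) ≠ (τ * b * τ⁻¹)⁻¹ z := fun e => hm (comm_fix_left h1 e)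
      have h3 : b (τ⁻¹ z) ≠ τ⁻¹ z := by
        intro e
        apply h2
        rw [perm_inv_fix.2 (conj_fix.2 e), h1]
      rw [ind_of h2, ind_of h3]
      nlinarith
    by_cases h2 : b (τ⁻¹ z) = τ⁻¹ z
    · have h3 : b (τ⁻¹ (a⁻¹ z)) ≠ τ⁻¹ (a⁻¹ z) := fun e =>
        hm (comm_fix_right (conj_fix.2 h2) (conj_fix.2 e))
      rw [ind_of h1, ind_of h3]
      nlinarith
    · rw [ind_of h1, ind_of h2]
      nlinarith
  · simp only [E_sum]
    refine (sum_le_sum fun s _ => GE s).trans ?_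
    simp
    linarith

theorem almost_iter (D : ℕ) : ∃ l0 : ℕ, ∀ k : ℕ, ∃ l, l + 6 ≤ 4 ^ k * l0 ∧
    Almost D ((1 / 2) ^ (2 ^ k) / 48) l := by
  obtain ⟨l0, h0⟩ := base D (δ := 1 / 96) (by norm_num)
  refine ⟨l0 + 6, fun k => ?_⟩
  induction k with
  | zero => exact ⟨l0, by simp, by norm_num; exact h0⟩
  | succ k ih =>
    obtain ⟨l, h1, h2⟩ := ih
    refine ⟨4 * l + 16, ?_, ?_⟩
    · rw [pow_succ]; nlinarith
    · have := square h2
      have e : 48 * ((1 / 2 : ℝ) ^ (2 ^ k) / 48) ^ 2 = (1 / 2) ^ (2 ^ (k + 1)) / 48 := by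
        rw [pow_succ 2 k, pow_mul]; ring
      rwa [e] at this

end Pool.Agent.P.MP_13a6c0_al
end

-- part Pool.Agent.P.MP_13a6c0_al.Act
section

/-! Actions of the free group along shift orbits given by local rules; slow complexity. -/

namespace Pool.Agent.P.MP_13a6c0_al

open Finset Rv

variable {A : Type*}

lemma sh_sh (k l : ℤ) (x : ℤ → A) : sh k (sh l x) = sh (k + l) x := by
  funext n; simp [sh, add_assoc]

lemma sh_zero (x : ℤ → A) : sh 0 x = x := by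
  funext n; simp [sh]

/-- agreement on a central window -/
def Agree (R : ℤ) (x y : ℤ → A) : Prop := ∀ n, |n| ≤ R → x n = y n

lemma Agree.mono {R R' : ℤ} {x y : ℤ → A} (h : Agree R x y) (hR : R' ≤ R) : Agree R' x y :=
  fun n hn => h n (hn.trans hR)

lemma Agree.shift {R R' m : ℤ} {x y : ℤ → A} (h : Agree R x y) (hR : |m| + R' ≤ R) :
    Agree R' (sh m x) (sh m y) := fun n hn => h _ (by
  have := abs_add_le n m
  linarith)

/-- an action of the free group on the shift orbits in `S` by a local rule -/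
structure Act (S : Set (ℤ → A)) where
  ρ : (ℤ → A) → (FG →* Equiv.Perm ℤ)
  D : ℕ
  R : ℕ
  inv : ∀ k : ℤ, ∀ x ∈ S, sh k x ∈ S
  bd : ∀ x ∈ S, Bd D (ρ x)
  eqv : ∀ x ∈ S, ∀ (k : ℤ) (g : FG) (n : ℤ), ρ (sh k x) g n = ρ x g (n + k) - k
  loc : ∀ x ∈ S, ∀ y ∈ S, Agree R x y → ∀ s : Letter, ρ x (lt s) 0 = ρ y (lt s) 0

namespace Act

variable {S : Set (ℤ → A)} (α : Act S)

lemma eqv0 {x : ℤ → A} (hx : x ∈ S) (g : FG) (m : ℤ) : α.ρ x g m = α.ρ (sh m x) g 0 + m := by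
  rw [α.eqv x hx]; simp

lemma loc_all {x y : ℤ → A} (hx : x ∈ S) (hy : y ∈ S) (g : FG)
    (h : Agree (α.D * g.norm + α.R) x y) : α.ρ x g 0 = α.ρ y g 0 := by
  have key : ∀ L : List Letter, Agree (α.D * L.length + α.R) x y →
      α.ρ x (FreeGroup.mk L) 0 = α.ρ y (FreeGroup.mk L) 0 := by
    intro L
    induction L with
    | nil => intro _; simp [← FreeGroup.one_eq_mk]
    | cons s L ih =>
      intro h
      have h1 : Agree (α.D * L.length + α.R) x y := h.mono (by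
        push_cast [List.length_cons]
        nlinarith [Int.natCast_nonneg α.D])
      rw [mk_cons, map_mul, map_mul, Equiv.Perm.mul_apply, Equiv.Perm.mul_apply, ← ih h1]
      set m := α.ρ x (FreeGroup.mk L) 0
      have h2 : |m| ≤ α.D * L.length := by
        have := α.bd x hx (FreeGroup.mk L) 0
        rw [sub_zero] at this
        refine this.trans ?_
        exact_mod_cast Nat.mul_le_mul_left α.D FreeGroup.norm_mk_le
      rw [α.eqv0 hx, α.eqv0 hy,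
        α.loc _ (α.inv m x hx) _ (α.inv m y hy) (h1.shift (by linarith)) s]
  have := key g.toWord h
  rwa [FreeGroup.mk_toWord] at this

/-- faithful on the orbits in `Z` -/
def Faithful (Z : Set (ℤ → A)) : Prop := ∀ g : FG, g ≠ 1 → ∃ x ∈ Z, α.ρ x g 0 ≠ 0

/-- restriction along an endomorphism -/
noncomputable def comp (ψ : FG →* FG) : Act S where
  ρ x := (α.ρ x).comp ψ
  D := α.D * univ.sup fun s : Letter => (ψ (lt s)).norm
  R := α.D * (univ.sup fun s : Letter => (ψ (lt s)).norm) + α.R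
  inv := α.inv
  bd x hx := bd_of_letters fun s z => (α.bd x hx _ z).trans (by
    exact_mod_cast Nat.mul_le_mul_left α.D
      (le_sup (f := fun s : Letter => (ψ (lt s)).norm) (mem_univ s)))
  eqv x hx k g n := α.eqv x hx k (ψ g) n
  loc x hx y hy h s := α.loc_all hx hy _ (h.mono (by
    have := Nat.mul_le_mul_left α.D
      (le_sup (f := fun s : Letter => (ψ (lt s)).norm) (mem_univ s))
    exact_mod_cast Nat.add_le_add_right this α.R))

lemma comp_ρ (ψ : FG →* FG) (x : ℤ → A) (g : FG) : (α.comp ψ).ρ x g = α.ρ x (ψ g) := rfl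

lemma Faithful.comp {Z : Set (ℤ → A)} (h : α.Faithful Z) {ψ : FG →* FG}
    (hψ : Function.Injective ψ) : (α.comp ψ).Faithful Z :=
  fun g hg => h (ψ g) fun e => hg (hψ (by rw [e, map_one]))

theorem not_faithful_of_card [Finite A] {Y : Set (ℤ → A)} (hY : Y ⊆ S)
    (hinv : ∀ k : ℤ, ∀ x ∈ Y, sh k x ∈ Y) {δ : ℝ} {l n : ℕ} (ha : Almost α.D δ l)
    (hn : 2 * (α.D * l + α.R) + 1 ≤ n) (hδ : complexity Y n * δ < 1) : ¬ α.Faithful Y := by
  classical
  intro hf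
  obtain ⟨μ, hμ, hb⟩ := ha
  set r : ℕ := α.D * l + α.R with hr
  set W := {w : List A | w.length = n ∧ ∃ x ∈ Y, Occurs w x} with hW
  have hWfin : W.Finite := (List.finite_length_eq A n).subset fun w hw => hw.1
  set win : (ℤ → A) → List A := fun x => List.ofFn fun k : Fin n => x (-r + (k : ℕ)) with hwin
  have win_mem : ∀ x ∈ Y, win x ∈ W := by
    intro x hx
    refine ⟨by simp [hwin], x, hx, -r, fun k => ?_⟩
    simp [hwin]
  have win_agree : ∀ x y, win x = win y → Agree r x y := by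
    intro x y e m hm
    have h1 := List.ofFn_injective e
    have h2 := abs_le.1 hm
    have h3 := congrFun h1 ⟨(m + r).toNat, by omega⟩
    have h4 : -(r : ℤ) + ((m + r).toNat : ℕ) = m := by omega
    simpa only [h4] using h3
  have hrep : ∀ w : List A, ∃ x : ℤ → A, (∃ y ∈ Y, win y = w) → x ∈ Y ∧ win x = w := by
    intro w
    by_cases h : ∃ y ∈ Y, win y = w
    · obtain ⟨y, hy⟩ := h
      exact ⟨y, fun _ => hy⟩
    · obtain ⟨x, -⟩ := hf (lt (0, true)) (St_lt _).ne_one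
      exact ⟨x, fun h' => absurd h' h⟩
  choose rep hrep using hrep
  set W' := hWfin.toFinset.filter fun w => ∃ y ∈ Y, win y = w with hW'
  have hδ0 : 0 ≤ δ := by
    obtain ⟨x, hx, -⟩ := hf (lt (0, true)) (St_lt _).ne_one
    exact le_trans (μ.E_nonneg fun _ => ind_nonneg _) (hb _ (α.bd x (hY hx)) 0)
  have h1 : μ.E (fun g => ∑ w ∈ W', ind (α.ρ (rep w) g 0 ≠ 0)) < 1 := by
    rw [E_sum]
    have a1 : ∑ w ∈ W', μ.E (fun g => ind (α.ρ (rep w) g 0 ≠ 0)) ≤ ∑ _w ∈ W', δ :=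
      sum_le_sum fun w hw => hb _ (α.bd _ (hY (hrep w (mem_filter.1 hw).2).1)) 0
    rw [sum_const, nsmul_eq_mul] at a1
    have a2 : W'.card ≤ complexity Y n := by
      rw [complexity, ← hW, Set.ncard_eq_toFinset_card W hWfin]
      exact card_filter_le _ _
    have a3 : (W'.card : ℝ) * δ ≤ complexity Y n * δ := by gcongr
    linarith
  obtain ⟨i, hi⟩ := μ.exists_lt h1
  obtain ⟨x, hx, hmove⟩ := hf _ (hμ i).1
  have hw : win x ∈ W' := mem_filter.2 ⟨by simpa using win_mem x hx, x, hx, rfl⟩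
  obtain ⟨b1, b2⟩ := hrep (win x) ⟨x, hx, rfl⟩
  have b3 : α.ρ (rep (win x)) (μ.g i) 0 = α.ρ x (μ.g i) 0 := by
    refine α.loc_all (hY b1) (hY hx) _ ((win_agree _ _ b2).mono ?_)
    have := Nat.add_le_add_right (Nat.mul_le_mul_left α.D (hμ i).2) α.R
    exact_mod_cast this
  have b4 := single_le_sum (f := fun w => ind (α.ρ (rep w) (μ.g i) 0 ≠ 0))
    (fun _ _ => ind_nonneg _) hw
  rw [b3, ind_of hmove] at b4
  linarith

theorem not_faithful_of_slow [Finite A] {Y : Set (ℤ → A)} (hY : Y ⊆ S)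
    (hinv : ∀ k : ℤ, ∀ x ∈ Y, sh k x ∈ Y) (hs : Slow Y) : ¬ α.Faithful Y := by
  obtain ⟨l0, hl0⟩ := almost_iter α.D
  set C : ℕ := 2 * α.D * l0 + 2 * α.R + 1 with hC
  have hC0 : 0 < C := by omega
  have hC0' : (0 : ℝ) < Real.sqrt C := Real.sqrt_pos.2 (by exact_mod_cast hC0)
  have hlog : 0 < Real.log 2 := Real.log_pos one_lt_two
  obtain ⟨n, hn1, hn2⟩ := ((hs (Real.log 2 / (2 * Real.sqrt C)) (by positivity)).and_eventually
    (Filter.eventually_ge_atTop C)).exists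
  set k := Nat.log 4 (n / C) with hk
  have hq : n / C ≠ 0 := (Nat.div_pos hn2 hC0).ne'
  have k1 : 4 ^ k * C ≤ n :=
    (Nat.mul_le_mul_right C (Nat.pow_log_le_self 4 hq)).trans (Nat.div_mul_le_self n C)
  have k2 : n < 4 ^ (k + 1) * C :=
    (Nat.div_lt_iff_lt_mul hC0).1 (Nat.lt_pow_succ_log_self (by norm_num) _)
  obtain ⟨l, hl1, hl2⟩ := hl0 k
  refine α.not_faithful_of_card hY hinv hl2 (n := n) ?_ ?_
  · have a1 : 1 ≤ 4 ^ k := Nat.one_le_pow _ _ (by norm_num)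
    have a2 : α.D * l ≤ α.D * (4 ^ k * l0) := Nat.mul_le_mul_left _ (by omega)
    have a3 : 2 * α.R + 1 ≤ 4 ^ k * (2 * α.R + 1) := Nat.le_mul_of_pos_left _ a1
    have a4 : 4 ^ k * C = 2 * (α.D * (4 ^ k * l0)) + 4 ^ k * (2 * α.R + 1) := by rw [hC]; ring
    omega
  · have a1 : Real.sqrt n ≤ 2 ^ (k + 1) * Real.sqrt C := by
      rw [Real.sqrt_le_left (by positivity), mul_pow, Real.sq_sqrt (Nat.cast_nonneg C),
        ← pow_mul, mul_comm (k + 1), pow_mul]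
      have : (n : ℝ) ≤ 4 ^ (k + 1) * C := by exact_mod_cast k2.le
      norm_num
      exact this
    have a2 : Real.log (complexity Y n) ≤ 2 ^ k * Real.log 2 := by
      refine hn1.trans ?_
      calc Real.log 2 / (2 * Real.sqrt C) * Real.sqrt n
          ≤ Real.log 2 / (2 * Real.sqrt C) * (2 ^ (k + 1) * Real.sqrt C) := by gcongr
        _ = 2 ^ k * Real.log 2 := by rw [pow_succ]; field_simp
    have a3 : (complexity Y n : ℝ) ≤ 2 ^ (2 ^ k) := by
      rcases Nat.eq_zero_or_pos (complexity Y n) with h | h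
      · rw [h]; simp
      · rw [← Real.log_le_log_iff (by exact_mod_cast h) (by positivity), Real.log_pow]
        exact_mod_cast a2
    have a4 : (2 : ℝ) ^ (2 ^ k) * (1 / 2) ^ (2 ^ k) = 1 := by rw [← mul_pow]; simp
    have a5 : (complexity Y n : ℝ) * (1 / 2) ^ (2 ^ k) ≤ 2 ^ (2 ^ k) * (1 / 2) ^ (2 ^ k) := by
      gcongr
    linarith

end Act

end Pool.Agent.P.MP_13a6c0_al
end

-- part Pool.Agent.P.MP_13a6c0_al.Chain
section

/-! Minimal subshifts and the reduction to subshifts avoiding a given one. -/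

namespace Pool.Agent.P.MP_13a6c0_al

open Finset Rv

/-- the half line is invariant -/
def Cut (e : Equiv.Perm ℤ) (n : ℤ) : Prop := ∀ z, e z ≤ n ↔ z ≤ n

lemma Cut.mul {e e' : Equiv.Perm ℤ} {n : ℤ} (h : Cut e n) (h' : Cut e' n) : Cut (e * e') n :=
  fun z => (h _).trans (h' z)

lemma Cut.pow {e : Equiv.Perm ℤ} {n : ℤ} (h : Cut e n) (k : ℕ) : Cut (e ^ k) n := by
  induction k with
  | zero => intro z; simp
  | succ k ih => rw [pow_succ]; exact ih.mul h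

lemma barrier {e : Equiv.Perm ℤ} {d M : ℕ} (hd : ∀ z, |e z - z| ≤ d)
    (h : ∀ p, e p ≠ p → ∃ n, |n - p| ≤ M ∧ Cut e n) (z : ℤ) :
    (e ^ (2 * (2 * M + d + 1) + 1).factorial) z = z := by
  classical
  by_cases hz : e z = z
  · exact Equiv.Perm.pow_apply_eq_self_of_apply_eq_self hz _
  have hmv : ∀ k : ℕ, e ((e ^ k) z) ≠ (e ^ k) z := by
    intro k hk
    apply hz
    apply (e ^ k).injective
    rw [← hk, ← Equiv.Perm.mul_apply, ← Equiv.Perm.mul_apply, ← pow_succ, ← pow_succ']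
  have step : ∀ k : ℕ, |(e ^ (k + 1)) z - (e ^ k) z| ≤ d := by
    intro k
    rw [pow_succ', Equiv.Perm.mul_apply]
    exact hd _
  have hin : ∀ k : ℕ, (e ^ k) z ∈ Icc (z - (2 * M + d + 1 : ℕ)) (z + (2 * M + d + 1 : ℕ)) := by
    intro k
    rw [mem_Icc]
    constructor
    · by_contra hk
      have ex : ∃ j : ℕ, (e ^ j) z < z - M := ⟨k, by omega⟩
      have h1 := Nat.find_spec ex
      obtain ⟨j, hj⟩ : ∃ j, Nat.find ex = j + 1 := Nat.exists_eq_succ_of_ne_zero (by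
        intro h0
        rw [h0] at h1
        simp at h1
        omega)
      have h2 := Nat.find_min ex (m := j) (by omega)
      rw [hj] at h1
      have h3 := abs_le.1 (step j)
      obtain ⟨n, hn, hc⟩ := h _ (hmv (j + 1))
      have h4 := abs_le.1 hn
      have h5 := hc.pow k z
      omega
    · by_contra hk
      have ex : ∃ j : ℕ, z + M < (e ^ j) z := ⟨k, by omega⟩
      have h1 := Nat.find_spec ex
      obtain ⟨j, hj⟩ : ∃ j, Nat.find ex = j + 1 := Nat.exists_eq_succ_of_ne_zero (by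
        intro h0
        rw [h0] at h1
        simp at h1
        omega)
      have h2 := Nat.find_min ex (m := j) (by omega)
      rw [hj] at h1
      have h3 := abs_le.1 (step j)
      obtain ⟨n, hn, hc⟩ := h _ (hmv (j + 1))
      have h4 := abs_le.1 hn
      have h5 := hc.pow k z
      omega
  set K := 2 * (2 * M + d + 1) + 1 with hK
  have hc : (Icc (z - (2 * M + d + 1 : ℕ)) (z + (2 * M + d + 1 : ℕ))).card < (range (K + 1)).card := by
    rw [Int.card_Icc, card_range]; omega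
  have key : ∀ i j : ℕ, i < j → j ≤ K → (e ^ i) z = (e ^ j) z → (e ^ K.factorial) z = z := by
    intro i j hij hj he
    obtain ⟨c, hc⟩ := Nat.dvd_factorial (m := j - i) (n := K) (by omega) (by omega)
    rw [hc]
    apply pow_mul_fix
    apply (e ^ i).injective
    rw [← Equiv.Perm.mul_apply, ← pow_add, he]
    congr 2
    omega
  obtain ⟨i, hi, j, hj, hne, he⟩ := exists_ne_map_eq_of_card_lt_of_maps_to hc
    (f := fun k => (e ^ k) z) fun k _ => hin k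
  rw [mem_range] at hi hj
  rcases lt_or_gt_of_ne hne with h1 | h1
  · exact key i j h1 (by omega) he
  · exact key j i h1 (by omega) he.symm

lemma exists_free {g : FG} (hg : g ≠ 1) : ∃ ψ : FG →* FG, Function.Injective ψ ∧
    ∀ θ : FG →* Equiv.Perm ℤ, θ g = 1 → ∀ s : Letter, θ (ψ (lt s)) = 1 := by
  have h1 : ∀ i : Fin 2, ∃ u : FG, St (i, true) u ∧ En (i, true) u ∧
      ∀ θ : FG →* Equiv.Perm ℤ, θ g = 1 → θ u = 1 := by
    intro i
    obtain ⟨y1, a1, a2⟩ := exists_conj (i, true) hg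
    obtain ⟨y2, b1, b2⟩ := exists_conj (i, false) hg
    have n1 : ((i, false) : Letter) ≠ iv (iv (i, true)) := by simp [iv]
    refine ⟨_, a1.mul a2 b1 n1, b2.mul a2 b1 n1, fun θ hθ => ?_⟩
    simp [hθ]
  choose u h1 h2 h3 using h1
  set ψ : FG →* FG := FreeGroup.lift u with hψ
  have e1 : ∀ i, ψ (lt (i, true)) = u i := fun i => FreeGroup.lift_apply_of
  have e2 : ∀ i, ψ (lt (i, false)) = (u i)⁻¹ := by
    intro i
    rw [← e1, ← map_inv, lt_inv]
    rfl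
  have f1 : ∀ s : Letter, St s (ψ (lt s)) ∧ En s (ψ (lt s)) := by
    rintro ⟨i, b⟩
    cases b
    · rw [e2]
      exact ⟨(h2 i).inv, (h1 i).inv⟩
    · rw [e1]
      exact ⟨h1 i, h2 i⟩
  have key : ∀ (L : List Letter) (s : Letter), FreeGroup.IsReduced (s :: L) →
      St s (ψ (FreeGroup.mk (s :: L))) := by
    intro L
    induction L with
    | nil => intro s _; exact (f1 s).1
    | cons t L ih =>
      intro s hs
      rw [FreeGroup.isReduced_cons_cons] at hs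
      rw [mk_cons, map_mul]
      refine (f1 s).1.mul (f1 s).2 (ih t hs.2) ?_
      rintro rfl
      have := hs.1 rfl
      simp [iv] at this
  refine ⟨ψ, (injective_iff_map_eq_one ψ).2 fun h hh => ?_, ?_⟩
  · by_contra hne
    have h4 : h.toWord ≠ [] := fun e => hne (FreeGroup.toWord_eq_nil_iff.1 e)
    obtain ⟨s, L, e⟩ := List.exists_cons_of_ne_nil h4
    have h5 := key L s (e ▸ FreeGroup.isReduced_toWord)
    rw [← e, FreeGroup.mk_toWord] at h5
    exact h5.ne_one hh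
  · rintro θ hθ ⟨i, b⟩
    cases b
    · rw [e2, map_inv, h3 i θ hθ, inv_one]
    · rw [e1, h3 i θ hθ]

variable {A : Type*}

namespace Act

variable {S : Set (ℤ → A)} (α : Act S)

lemma not_faithful_of_cut {Z : Set (ℤ → A)} (hZ : Z ⊆ S) (hinv : ∀ k : ℤ, ∀ x ∈ Z, sh k x ∈ Z)
    {w : FG} (hw : w ≠ 1) {M : ℕ}
    (h : ∀ x ∈ Z, α.ρ x w 0 ≠ 0 → ∃ n : ℤ, |n| ≤ M ∧ Cut (α.ρ x w) n) : ¬ α.Faithful Z := by
  intro hf
  obtain ⟨x, hx, hm⟩ := hf (w ^ (2 * (2 * M + α.D * w.norm + 1) + 1).factorial) (by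
    rw [Ne, pow_eq_one_iff_left (Nat.factorial_ne_zero _)]
    exact hw)
  apply hm
  rw [map_pow]
  refine barrier (fun z => by exact_mod_cast α.bd x (hZ hx) w z) (fun p hp => ?_) 0
  obtain ⟨n, hn, hc⟩ := h _ (hinv p x hx) (by
    intro e
    apply hp
    rw [α.eqv0 (hZ hx), e, zero_add])
  refine ⟨n + p, by simpa using hn, fun z => ?_⟩
  have := hc (z - p)
  rw [α.eqv x (hZ hx), sub_add_cancel] at this
  omega

lemma loc_at {x y : ℤ → A} (hx : x ∈ S) (hy : y ∈ S) (g : FG) (m : ℤ) {r : ℤ}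
    (h : Agree r x y) (hr : |m| + (α.D * g.norm + α.R) ≤ r) : α.ρ x g m = α.ρ y g m := by
  rw [α.eqv0 hx, α.eqv0 hy, α.loc_all (α.inv m x hx) (α.inv m y hy) g (h.shift hr)]

lemma kill {Y : Set (ℤ → A)} (hY : Y ⊆ S) (hinv : ∀ k : ℤ, ∀ x ∈ Y, sh k x ∈ Y)
    (h : ¬ α.Faithful Y) : ∃ ψ : FG →* FG, Function.Injective ψ ∧
      ∀ x ∈ Y, ∀ s : Letter, (α.comp ψ).ρ x (lt s) = 1 := by
  unfold Faithful at h
  push Not at h
  obtain ⟨g, hg, h⟩ := h
  obtain ⟨ψ, h1, h2⟩ := exists_free hg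
  refine ⟨ψ, h1, fun x hx s => h2 (α.ρ x) ?_ s⟩
  ext z
  rw [α.eqv0 (hY hx), h _ (hinv z x hx)]
  simp

end Act

variable [TopologicalSpace A] [DiscreteTopology A]

lemma agree_nhds (r : ℤ) (x : ℤ → A) : {y | Agree r x y} ∈ nhds x := by
  have h := set_pi_mem_nhds (i := Set.Icc (-r) r) (s := fun n => {x n}) (x := x)
    (Set.finite_Icc _ _) fun n _ => (isOpen_discrete _).mem_nhds rfl
  refine Filter.mem_of_superset h fun y hy n hn => ?_
  exact (hy n (abs_le.1 hn)).symm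

lemma closed_of_local {Z : Set (ℤ → A)} (hZ : IsClosed Z) {P : (ℤ → A) → Prop} (r : ℤ)
    (h : ∀ x ∈ Z, ∀ y ∈ Z, Agree r x y → P y → P x) : IsClosed {x | x ∈ Z ∧ P x} := by
  refine isClosed_of_closure_subset fun x hx => ?_
  have h1 : x ∈ Z := hZ.closure_subset (closure_mono (fun y hy => hy.1) hx)
  obtain ⟨y, hy1, hy2⟩ := mem_closure_iff_nhds.1 hx _ (agree_nhds r x)
  exact ⟨h1, h x h1 y hy2.1 hy1 hy2.2⟩

omit [DiscreteTopology A] in
lemma exists_empty [Finite A] {Z : ℕ → Set (ℤ → A)} (hc : ∀ i, IsClosed (Z i))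
    (ha : ∀ i, Z (i + 1) ⊆ Z i) (he : ∀ x, ∃ i, x ∉ Z i) : ∃ i, ∀ x, x ∉ Z i := by
  by_contra hcon
  push Not at hcon
  obtain ⟨x, hx⟩ := IsCompact.nonempty_iInter_of_sequence_nonempty_isCompact_isClosed Z ha hcon
    (hc 0).isCompact hc
  obtain ⟨i, hi⟩ := he x
  exact hi (Set.mem_iInter.1 hx i)

namespace Act

variable {S : Set (ℤ → A)} (α : Act S)

theorem not_faithful_of_minimal [Finite A] {Y : Set (ℤ → A)} (hY : Y ⊆ S) (hs : IsSubshift Y)
    (hm : IsMinimalShift Y) : ¬ α.Faithful Y := by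
  intro hf
  obtain ⟨x, hx, -⟩ := hf (lt (0, true)) (St_lt _).ne_one
  obtain ⟨U, hU1, hU⟩ := interval α.D
  set K : ℕ := α.D * U.sup FreeGroup.norm with hK
  obtain ⟨u, hu, hJ⟩ := hU _ (α.bd x (hY hx)) (-K) 0 (by omega)
  have hb : ∀ y ∈ S, ∀ z, |α.ρ y u z - z| ≤ K := fun y hy z => (α.bd y hy u z).trans (by
    rw [hK]
    exact_mod_cast Nat.mul_le_mul_left α.D (le_sup (f := FreeGroup.norm) hu))
  have hcut : Cut (α.ρ x u) 0 := by
    intro z
    have h1 := hJ z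
    have h2 := abs_le.1 (hb x (hY hx) z)
    simp only [mem_Icc] at h1
    omega
  have hcl : ∀ n : ℤ, IsClosed {y | y ∈ Y ∧ ¬ Cut (α.ρ y u) n} := by
    intro n
    refine closed_of_local hs.1 (|n| + K + (α.D * u.norm + α.R)) fun y hy y' hy' ha h1 h2 => h1 ?_
    intro z
    by_cases hz : |z| ≤ |n| + K
    · rw [← α.loc_at (hY hy) (hY hy') u z ha (by linarith)]
      exact h2 z
    · have h3 := abs_le.1 (hb y' (hY hy') z)
      have h4 := le_abs_self n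
      have h5 := neg_abs_le n
      rcases abs_cases z with h6 | h6 <;> omega
  have hZ : IsSubshift {y | y ∈ Y ∧ ∀ n, ¬ Cut (α.ρ y u) n} := by
    constructor
    · have := isClosed_iInter hcl
      have e : {y | y ∈ Y ∧ ∀ n, ¬ Cut (α.ρ y u) n} = ⋂ n, {y | y ∈ Y ∧ ¬ Cut (α.ρ y u) n} := by
        ext y
        simp [forall_and]
      rwa [e]
    · rintro k y ⟨hy, h1⟩
      refine ⟨hs.2 k y hy, fun n h2 => h1 (n + k) fun z => ?_⟩
      have := h2 (z - k)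
      rw [α.eqv y (hY hy), sub_add_cancel] at this
      omega
  obtain ⟨M, hM⟩ := exists_empty
    (Z := fun M : ℕ => {y | y ∈ Y ∧ ∀ n : ℤ, |n| ≤ M → ¬ Cut (α.ρ y u) n}) (by
      intro M
      have := isClosed_biInter (s := {n : ℤ | |n| ≤ M}) fun n _ => hcl n
      have e : {y | y ∈ Y ∧ ∀ n : ℤ, |n| ≤ M → ¬ Cut (α.ρ y u) n} =
          Y ∩ ⋂ n ∈ {n : ℤ | |n| ≤ M}, {y | y ∈ Y ∧ ¬ Cut (α.ρ y u) n} := by
        ext y
        simp only [Set.mem_inter_iff, Set.mem_iInter, Set.mem_ofPred_eq]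
        exact ⟨fun h => ⟨h.1, fun n hn => ⟨h.1, h.2 n hn⟩⟩, fun h => ⟨h.1, fun n hn => (h.2 n hn).2⟩⟩
      rw [e]
      exact hs.1.inter this)
    (fun M y hy => ⟨hy.1, fun n hn => hy.2 n (by push_cast; linarith)⟩) (by
      intro y
      by_contra hcon
      push Not at hcon
      have h1 := hm _ hZ (fun y hy => hy.1) ⟨y, (hcon 0).1, fun n => (hcon n.natAbs).2 n (by simp)⟩
      rw [← h1] at hx
      exact hx.2 0 hcut)
  refine α.not_faithful_of_cut hY hs.2 (hU1 u hu) (M := M) (fun y hy _ => ?_) hf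
  have := hM y
  simp only [Set.mem_ofPred_eq, hy, true_and] at this
  push Not at this
  exact this

end Act

/-- some local rule action of the free group is faithful on `Z` -/
def Bad (S Z : Set (ℤ → A)) : Prop := ∃ α : Act S, α.Faithful Z

theorem bad_step [Finite A] {S Z Y : Set (ℤ → A)} (hZ : IsSubshift Z) (hZS : Z ⊆ S) (hb : Bad S Z)
    (hY : IsSubshift Y) (hYS : Y ⊆ S) (hn : ¬ Bad S Y) :
    ∃ Z1, IsSubshift Z1 ∧ Z1 ⊆ Z ∧ Disjoint Z1 Y ∧ Bad S Z1 := by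
  obtain ⟨α, hα⟩ := hb
  obtain ⟨ψ, hψ, hk⟩ := α.kill hYS hY.2 fun h => hn ⟨α, h⟩
  set β := α.comp ψ
  have hβ : β.Faithful Z := Act.Faithful.comp α hα hψ
  set Mv : (ℤ → A) → ℤ → Prop := fun x n => ∃ m, |m - n| ≤ β.D ∧ ∃ s, β.ρ x (lt s) m ≠ m with hMv
  have hcl : ∀ n : ℤ, IsClosed {x | x ∈ Z ∧ Mv x n} := by
    intro n
    refine closed_of_local hZ.1 (|n| + β.D + (β.D + β.R)) fun y hy y' hy' ha h1 => ?_
    obtain ⟨m, hm, s, hs⟩ := h1
    refine ⟨m, hm, s, ?_⟩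
    rwa [β.loc_at (hZS hy) (hZS hy') (lt s) m ha (by
      have := abs_add_le (m - n) n
      rw [sub_add_cancel] at this
      rw [norm_lt]
      push_cast
      linarith)]
  have hZ1 : IsSubshift {x | x ∈ Z ∧ ∀ n, Mv x n} := by
    constructor
    · have := isClosed_iInter hcl
      have e : {x | x ∈ Z ∧ ∀ n, Mv x n} = ⋂ n, {x | x ∈ Z ∧ Mv x n} := by
        ext y
        simp [forall_and]
      rwa [e]
    · rintro k y ⟨hy, h1⟩
      refine ⟨hZ.2 k y hy, fun n => ?_⟩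
      obtain ⟨m, hm, s, hs⟩ := h1 (n + k)
      refine ⟨m - k, by rwa [sub_sub, add_comm k], s, ?_⟩
      rw [β.eqv y (hZS hy), sub_add_cancel]
      omega
  refine ⟨_, hZ1, fun x hx => hx.1, ?_, β, ?_⟩
  · rw [Set.disjoint_left]
    rintro x ⟨-, hx⟩ hxY
    obtain ⟨m, -, s, hs⟩ := hx 0
    rw [hk x hxY s] at hs
    exact hs rfl
  by_contra hcon
  unfold Act.Faithful at hcon
  push Not at hcon
  obtain ⟨w, hw, hfix⟩ := hcon
  obtain ⟨M, hM⟩ := exists_empty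
    (Z := fun M : ℕ => {y | (y ∈ Z ∧ β.ρ y w 0 ≠ 0) ∧ ∀ n : ℤ, |n| ≤ M → Mv y n}) (by
      intro M
      have h1 := isClosed_biInter (s := {n : ℤ | |n| ≤ M}) fun n _ => hcl n
      have h2 : IsClosed {y | y ∈ Z ∧ β.ρ y w 0 ≠ 0} :=
        closed_of_local hZ.1 _ fun y hy y' hy' ha h1 => by
          rwa [β.loc_all (hZS hy) (hZS hy') w ha]
      have e : {y | (y ∈ Z ∧ β.ρ y w 0 ≠ 0) ∧ ∀ n : ℤ, |n| ≤ M → Mv y n} =
          {y | y ∈ Z ∧ β.ρ y w 0 ≠ 0} ∩ ⋂ n ∈ {n : ℤ | |n| ≤ M}, {y | y ∈ Z ∧ Mv y n} := by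
        ext y
        simp only [Set.mem_inter_iff, Set.mem_iInter, Set.mem_ofPred_eq]
        exact ⟨fun h => ⟨h.1, fun n hn => ⟨h.1.1, h.2 n hn⟩⟩,
          fun h => ⟨h.1, fun n hn => (h.2 n hn).2⟩⟩
      rw [e]
      exact h2.inter h1)
    (fun M y hy => ⟨hy.1, fun n hn => hy.2 n (by push_cast; linarith)⟩) (by
      intro y
      by_contra hcon
      push Not at hcon
      exact (hcon 0).1.2 (hfix y ⟨(hcon 0).1.1, fun n => (hcon n.natAbs).2 n (by simp)⟩))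
  refine β.not_faithful_of_cut hZS hZ.2 hw (M := M) (fun y hy hm => ?_) hβ
  have h1 := hM y
  simp only [Set.mem_ofPred_eq, hy, true_and, hMv] at h1
  push Not at h1
  obtain ⟨n, hn, h2⟩ := h1 hm
  refine ⟨n, hn, ?_⟩
  have h3 : ∀ s, Cut (β.ρ y (lt s)) n := by
    intro s z
    by_cases hz : |z - n| ≤ β.D
    · rw [h2 z hz s]
    · have h4 := abs_le.1 (β.bd y (hZS hy) (lt s) z)
      rw [norm_lt] at h4
      rcases abs_cases (z - n) with h6 | h6 <;> omega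
  have h4 : ∀ L : List Letter, Cut (β.ρ y (FreeGroup.mk L)) n := by
    intro L
    induction L with
    | nil => intro z; simp [← FreeGroup.one_eq_mk]
    | cons s L ih => rw [mk_cons, map_mul]; exact (h3 s).mul ih
  have := h4 w.toWord
  rwa [FreeGroup.mk_toWord] at this

theorem not_bad [Finite A] {S : Set (ℤ → A)} (hS : IsSubshift S) (Y : ℕ → Set (ℤ → A))
    (hY : ∀ k, IsSubshift (Y k) ∧ Y k ⊆ S ∧ (IsMinimalShift (Y k) ∨ Slow (Y k)))
    (hc : ∀ Z, IsSubshift Z → Z ⊆ S → Z.Nonempty → ∃ k, (Z ∩ Y k).Nonempty) : ¬ Bad S S := by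
  intro hb
  have hn : ∀ k, ¬ Bad S (Y k) := by
    rintro k ⟨α, hα⟩
    obtain ⟨h1, h2, h3 | h3⟩ := hY k
    · exact α.not_faithful_of_minimal h2 h1 h3 hα
    · exact α.not_faithful_of_slow h2 h1.2 h3 hα
  have step : ∀ (k : ℕ) (Z : {Z // IsSubshift Z ∧ Z ⊆ S ∧ Bad S Z}),
      ∃ Z1 : {Z // IsSubshift Z ∧ Z ⊆ S ∧ Bad S Z}, Z1.1 ⊆ Z.1 ∧ Disjoint Z1.1 (Y k) := by
    rintro k ⟨Z, h1, h2, h3⟩
    obtain ⟨Z1, a1, a2, a3, a4⟩ := bad_step h1 h2 h3 (hY k).1 (hY k).2.1 (hn k)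
    exact ⟨⟨Z1, a1, a2.trans h2, a4⟩, a2, a3⟩
  choose nxt h1 h2 using step
  set Z : ℕ → {Z // IsSubshift Z ∧ Z ⊆ S ∧ Bad S Z} :=
    fun k => Nat.rec ⟨S, hS, subset_rfl, hb⟩ nxt k with hZ
  have hne : ∀ k, (Z k).1.Nonempty := by
    intro k
    obtain ⟨α, hα⟩ := (Z k).2.2.2
    obtain ⟨x, hx, -⟩ := hα (lt (0, true)) (St_lt _).ne_one
    exact ⟨x, hx⟩
  have h3 := IsCompact.nonempty_iInter_of_sequence_nonempty_isCompact_isClosed
    (fun k => (Z k).1) (fun k => h1 k (Z k)) hne (Z 0).2.1.1.isCompact fun k => (Z k).2.1.1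
  obtain ⟨k, x, hx1, hx2⟩ := hc (⋂ k, (Z k).1)
    ⟨isClosed_iInter fun k => (Z k).2.1.1,
      fun j x hx => Set.mem_iInter.2 fun k => (Z k).2.1.2 j x (Set.mem_iInter.1 hx k)⟩
    ((Set.iInter_subset _ 0).trans (Z 0).2.2.1) h3
  exact Set.disjoint_left.1 (h2 k (Z k)) (Set.mem_iInter.1 hx1 (k + 1)) hx2

end Pool.Agent.P.MP_13a6c0_al
end
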