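import Pool.Agent.K.MP_13a6c0_al.C2

/-! From the topological full group to local rule actions. -/

namespace Pool.Agent.P.MP_13a6c0_al

open Finset

variable {A : Type*} [TopologicalSpace A] [DiscreteTopology A] {F : Set (List A)}

lemma isSubshift_SF (F : Set (List A)) : IsSubshift (SF F) := by
  refine ⟨?_, fun k x hx => sh_mem_SF k hx⟩
  refine isClosed_of_closure_subset fun x hx => ?_
  rintro w hw ⟨i, hi⟩
  obtain ⟨y, hy1, hy2⟩ := mem_closure_iff_nhds.1 hx _ (agree_nhds (|i| + w.length) x)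
  refine hy2 w hw ⟨i, fun k => ?_⟩
  rw [← hi k]
  refine (hy1 _ ?_).symm
  have h1 := abs_add_le i ((k : ℕ) : ℤ)
  have h2 := k.2
  rw [Nat.abs_cast] at h1
  omega

/-- locally a power of the shift -/
def Loc (h : SF F ≃ₜ SF F) : Prop :=
  ∀ x : SF F, ∃ c r : ℤ, ∀ y : SF F, Agree r x.1 y.1 → (h y).1 = sh c y.1

lemma loc_phi (hF : ∀ a, [a, a] ∈ F) (a : A) : Loc (phi F hF a) := by
  intro x
  by_cases c1 : x.1 1 = a
  · refine ⟨1, 1, fun y hy => ?_⟩
    have : y.1 1 = a := by rw [← hy 1 (by simp), c1]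
    show phiFun a y.1 = _
    simp [phiFun, this]
  by_cases c0 : x.1 0 = a
  · refine ⟨-1, 1, fun y hy => ?_⟩
    have h1 : y.1 1 ≠ a := by rwa [← hy 1 (by simp)]
    have h0 : y.1 0 = a := by rw [← hy 0 (by simp), c0]
    show phiFun a y.1 = _
    simp [phiFun, h1, h0]
  · refine ⟨0, 1, fun y hy => ?_⟩
    have h1 : y.1 1 ≠ a := by rwa [← hy 1 (by simp)]
    have h0 : y.1 0 ≠ a := by rwa [← hy 0 (by simp)]
    show phiFun a y.1 = _
    simp [phiFun, h1, h0, sh_zero]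

lemma loc_GF (hF : ∀ a, [a, a] ∈ F) {g : SF F ≃ₜ SF F} (hg : g ∈ GF F hF) : Loc g := by
  induction hg using Subgroup.closure_induction with
  | mem g hg =>
    obtain ⟨a, rfl⟩ := hg
    exact loc_phi hF a
  | one => exact fun x => ⟨0, 0, fun y _ => (sh_zero _).symm⟩
  | mul g h _ _ ig ih =>
    intro x
    obtain ⟨c, r, h1⟩ := ih x
    obtain ⟨c', r', h2⟩ := ig (h x)
    refine ⟨c' + c, max r (|c| + r'), fun y hy => ?_⟩
    have h3 := h1 y (hy.mono (le_max_left _ _))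
    have h4 := h1 x fun _ _ => rfl
    rw [Homeomorph.mul_apply, h2 (h y) (by
      rw [h3, h4]
      exact hy.shift (le_max_right _ _)), h3, sh_sh]
  | inv g _ ig =>
    intro x
    obtain ⟨c, r, h1⟩ := ig (g⁻¹ x)
    have h2 : x.1 = sh c (g⁻¹ x).1 := by
      rw [← h1 _ fun _ _ => rfl]
      simp
    have h3 : (g⁻¹ x).1 = sh (-c) x.1 := by rw [h2, sh_sh]; simp [sh_zero]
    refine ⟨-c, |-c| + r, fun y hy => ?_⟩
    have h4 := h1 ⟨sh (-c) y.1, sh_mem_SF _ y.2⟩ (by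
      rw [h3]
      exact hy.shift le_rfl)
    have h5 : g ⟨sh (-c) y.1, sh_mem_SF _ y.2⟩ = y := by
      apply Subtype.ext
      rw [h4, sh_sh]
      simp [sh_zero]
    have h6 : g⁻¹ y = ⟨sh (-c) y.1, sh_mem_SF _ y.2⟩ := by
      conv_lhs => rw [← h5]
      simp
    rw [h6]

lemma loc_full (hF : ∀ a, [a, a] ∈ F) {h : SF F ≃ₜ SF F} (hh : InFull F hF h) : Loc h := by
  intro x
  obtain ⟨U, hU, hx, g, hg, he⟩ := hh x
  obtain ⟨c, r, h1⟩ := loc_GF hF hg x
  obtain ⟨V, hV, rfl⟩ := isOpen_induced_iff.1 hU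
  obtain ⟨I, u, h2, h3⟩ := isOpen_pi_iff.1 hV x.1 hx
  refine ⟨c, max r (I.sup Int.natAbs : ℕ), fun y hy => ?_⟩
  rw [he (show y.1 ∈ V from h3 fun i hi => ?_), h1 y (hy.mono (le_max_left _ _))]
  rw [← hy i (le_max_of_le_right ?_)]
  · exact (h2 i hi).2
  · rw [← Int.natCast_natAbs]
    exact_mod_cast le_sup (f := Int.natAbs) hi

omit [TopologicalSpace A] [DiscreteTopology A] in
lemma Agree.trans_iff {r : ℤ} {x x' y : ℤ → A} (h : Agree r x x') : Agree r x y ↔ Agree r x' y :=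
  ⟨fun h1 n hn => (h n hn).symm.trans (h1 n hn), fun h1 n hn => (h n hn).trans (h1 n hn)⟩

lemma Loc.cocycle [Finite A] {h : SF F ≃ₜ SF F} (hh : Loc h) : ∃ R₀ : ℕ, ∀ R : ℕ, R₀ ≤ R →
    ∃ c : (ℤ → A) → ℤ, (∀ x : SF F, |c x.1| ≤ R ∧ (h x).1 = sh (c x.1) x.1) ∧
      ∀ x x', Agree R x x' → c x = c x' := by
  set Q : ℕ → (ℤ → A) → ℤ → Prop := fun M x c =>
    |c| ≤ M ∧ ∀ y : SF F, Agree M x y.1 → (h y).1 = sh c y.1 with hQ
  have Qm : ∀ M M' x c, M ≤ M' → Q M x c → Q M' x c := fun M M' x c hM h1 =>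
    ⟨h1.1.trans (by exact_mod_cast hM), fun y hy => h1.2 y (hy.mono (by exact_mod_cast hM))⟩
  have Qa : ∀ (M : ℕ) x x', Agree M x x' → Q M x = Q M x' := by
    intro M x x' ha
    funext c
    simp only [hQ, ha.trans_iff]
  obtain ⟨M, hM⟩ := exists_empty (Z := fun M : ℕ => {x | x ∈ SF F ∧ ¬ ∃ c, Q M x c})
    (fun M => closed_of_local (isSubshift_SF F).1 M fun x _ y _ ha h1 => by rwa [Qa M x y ha])
    (fun M x hx => ⟨hx.1, fun ⟨c, hc⟩ => hx.2 ⟨c, Qm _ _ _ _ (Nat.le_succ M) hc⟩⟩) (by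
      intro x
      by_cases hx : x ∈ SF F
      · obtain ⟨c, r, h1⟩ := hh ⟨x, hx⟩
        refine ⟨max c.natAbs r.natAbs, fun h2 => h2.2 ⟨c, ?_, fun y hy => h1 y (hy.mono ?_)⟩⟩
        · rw [← Int.natCast_natAbs]
          exact_mod_cast le_max_left _ _
        · refine Int.le_natAbs.trans ?_
          exact_mod_cast le_max_right _ _
      · exact ⟨0, fun h => hx h.1⟩)
  refine ⟨M, fun R hR => ⟨fun x => Classical.epsilon (Q R x), fun x => ?_,
    fun x x' ha => by simp only [Qa R x x' ha]⟩⟩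
  have h1 : ∃ c, Q R x.1 c := by
    have := hM x.1
    simp only [Set.mem_ofPred_eq, x.2, true_and, not_not] at this
    obtain ⟨c, hc⟩ := this
    exact ⟨c, Qm _ _ _ _ hR hc⟩
  have h2 := Classical.epsilon_spec h1
  exact ⟨h2.1, h2.2 x fun _ _ => rfl⟩

theorem bad_of_hom [Finite A] (f : FG →* (SF F ≃ₜ SF F)) (hf : ∀ g, Loc (f g))
    (hinj : Function.Injective f) : Bad (SF F) (SF F) := by
  classical
  choose R₀ hR₀ using fun i : Fin 2 => (hf (FreeGroup.of i)).cocycle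
  set R : ℕ := max (R₀ 0) (R₀ 1) with hR
  have hRi : ∀ i, R₀ i ≤ R := by
    intro i
    fin_cases i
    exacts [le_max_left _ _, le_max_right _ _]
  choose c hc1 hc2 using fun i => hR₀ i R (hRi i)
  have hbij : ∀ i, ∀ x ∈ SF F, Function.Bijective fun n : ℤ => n + c i (sh n x) := by
    intro i x hx
    constructor
    · intro n m e
      have h1 := (hc1 i ⟨sh n x, sh_mem_SF n hx⟩).2
      have h2 := (hc1 i ⟨sh m x, sh_mem_SF m hx⟩).2
      simp only [sh_sh] at h1 h2 e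
      rw [add_comm, e, add_comm, ← h2] at h1
      have h3 := congrArg Subtype.val ((f (FreeGroup.of i)).injective (Subtype.ext h1))
      simp only at h3
      rw [h3] at e
      omega
    · intro m
      set y := (f (FreeGroup.of i))⁻¹ ⟨sh m x, sh_mem_SF m hx⟩ with hy
      have h1 := (hc1 i y).2
      have h2 : f (FreeGroup.of i) y = ⟨sh m x, sh_mem_SF m hx⟩ := by simp [hy]
      rw [h2] at h1
      have h3 : sh (m - c i y.1) x = y.1 := by
        have := congrArg (sh (-c i y.1)) h1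
        simp only [sh_sh, neg_add_cancel, sh_zero] at this
        rw [sub_eq_neg_add, this]
      refine ⟨m - c i y.1, ?_⟩
      simp only [h3]
      omega
  set e : Fin 2 → (ℤ → A) → Equiv.Perm ℤ := fun i x =>
    if hx : x ∈ SF F then Equiv.ofBijective _ (hbij i x hx) else 1 with he
  have he1 : ∀ i, ∀ x ∈ SF F, ∀ n, e i x n = n + c i (sh n x) := by
    intro i x hx n
    simp [he, hx]
  set ρ : (ℤ → A) → (FG →* Equiv.Perm ℤ) := fun x => FreeGroup.lift fun i => e i x with hρ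
  have r1 : ∀ x i, ρ x (FreeGroup.of i) = e i x := fun x i => FreeGroup.lift_apply_of
  have r2 : ∀ x i, ρ x (lt (i, true)) = e i x := r1
  have r3 : ∀ x i, ρ x (lt (i, false)) = (e i x)⁻¹ := by
    intro x i
    rw [← r2, ← map_inv, lt_inv]
    rfl
  have b1 : ∀ i, ∀ x ∈ SF F, ∀ n, |e i x n - n| ≤ R := by
    intro i x hx n
    rw [he1 i x hx, add_sub_cancel_left]
    exact (hc1 i ⟨sh n x, sh_mem_SF n hx⟩).1
  have b2 : ∀ i, ∀ x ∈ SF F, ∀ n, |(e i x)⁻¹ n - n| ≤ R := by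
    intro i x hx n
    have := b1 i x hx ((e i x)⁻¹ n)
    rw [abs_sub_comm] at this
    simpa using this
  have rel : ∀ x (hx : x ∈ SF F) (g : FG) (n : ℤ),
      (f g ⟨sh n x, sh_mem_SF n hx⟩).1 = sh (ρ x g n) x := by
    intro x hx g
    induction g using FreeGroup.induction_on with
    | C1 => intro n; simp
    | of i =>
      intro n
      rw [(hc1 i _).2, r1, he1 i x hx, sh_sh, add_comm]
    | inv_of i ih =>
      intro n
      have h1 := ih (ρ x (FreeGroup.of i)⁻¹ n)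
      have h2 : ρ x (FreeGroup.of i) (ρ x (FreeGroup.of i)⁻¹ n) = n := by simp
      rw [h2] at h1
      have h3 : f (FreeGroup.of i) ⟨_, sh_mem_SF (ρ x (FreeGroup.of i)⁻¹ n) hx⟩ =
          ⟨sh n x, sh_mem_SF n hx⟩ := Subtype.ext h1
      rw [← h3, map_inv f]
      simp
    | mul g h ig ih =>
      intro n
      have h3 : f h ⟨sh n x, sh_mem_SF n hx⟩ = ⟨_, sh_mem_SF (ρ x h n) hx⟩ := Subtype.ext (ih n)
      rw [map_mul, map_mul, Homeomorph.mul_apply, h3, ig, Equiv.Perm.mul_apply]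
  refine ⟨⟨ρ, R, 2 * R, fun k x hx => sh_mem_SF k hx, fun x hx => bd_of_letters ?_, ?_, ?_⟩, ?_⟩
  · rintro ⟨i, b⟩ z
    cases b
    · rw [r3]; exact b2 i x hx z
    · rw [r2]; exact b1 i x hx z
  · intro x hx k g
    induction g using FreeGroup.induction_on with
    | C1 => intro n; simp
    | of i =>
      intro n
      rw [r1, r1, he1 i x hx, he1 i _ (sh_mem_SF k hx), sh_sh]
      omega
    | inv_of i ih =>
      intro n
      rw [map_inv, map_inv, Equiv.Perm.inv_eq_iff_eq, ih]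
      simp
    | mul g h ig ih =>
      intro n
      rw [map_mul, map_mul, Equiv.Perm.mul_apply, Equiv.Perm.mul_apply, ig, ih, sub_add_cancel]
  · rintro x hx y hy ha ⟨i, b⟩
    cases b
    · rw [r3, r3, eq_comm, Equiv.Perm.inv_eq_iff_eq]
      have h1 := b2 i x hx 0
      rw [sub_zero] at h1
      have h2 : e i x ((e i x)⁻¹ 0) = 0 := by simp
      rw [he1 i y hy, ← hc2 i _ _ (ha.shift (by push_cast; linarith)), ← he1 i x hx, h2]
    · rw [r2, r2, he1 i x hx, he1 i y hy, hc2 i _ _ (ha.shift (by push_cast; simp; omega))]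
  · intro g hg
    by_contra hcon
    push Not at hcon
    apply hg
    apply hinj
    rw [map_one]
    ext x : 1
    have h1 := rel x.1 x.2 g 0
    simp only [hcon x.1 x.2, sh_zero] at h1
    exact Subtype.ext h1

end Pool.Agent.P.MP_13a6c0_al
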